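import Pool.Agent.Lib_helper40.PB.Dat

set_option autoImplicit false
set_option maxRecDepth 100000

/-!
# `t = -1/5`: the checks
-/

namespace Pool.Agent.PB6

open MK4 KC72 AX

lemma chk_ne : chkN C (E ++ G) = true := by decide +kernel

lemma chk_cl : pool.all (chkP C (E ++ G)) = true := by decide +kernel

lemma pool_ok : PoolOk C E G pool := ⟨by decide, chk_ne, chk_cl⟩

lemma chk_A : D.chkA ((E ++ G).map El.isK) pool = true := by decide +kernel

lemma chk_B : D.chkB pool [(-10323892, Lp), (-30971676, Lx')] = true := by decide +kernel

lemma chk_C : D.chkC 48 (E ++ G).length 25 4 pool [(-10323892, Lp), (-30971676, Lx')] = true := by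
  decide +kernel

end Pool.Agent.PB6
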