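import Pool.Agent.Lib_helper87.AX.R

set_option autoImplicit false

/-!
# `t = -1/5`: the data of the identity between the class pulled back from `t = 1` and the class of
the table
-/

namespace Pool.Agent.PB6

open MK4 KC72 AX

/-- the curve `25 y ^ 2 = (25 x ^ 3 + 4 x ^ 2) - (30 x + 4) y` -/
def C : Cv := ⟨25, [0, 0, 4, 25], [-4, -30]⟩

/-- the auxiliary generators: `3` and five lines -/
def E : List El :=
  [⟨[3], [], 1⟩, ⟨[2, 15], [25], 25⟩, ⟨[0, 2], [5], 5⟩, ⟨[4, 20], [25], 25⟩, ⟨[8, 50], [25], 25⟩,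
    ⟨[24, 150], [125], 125⟩]

/-- the generators of the table -/
def G : List El :=
  [⟨[0, 1], [], 1⟩, ⟨[4, 25], [], 25⟩, ⟨[1, 5], [], 5⟩, ⟨[], [1], 1⟩, ⟨[0, 1], [5], 5⟩, ⟨[2], [], 1⟩,
    ⟨[5], [], 1⟩]

/-- the classes -/
def pool : List (Mo × Mo) := [
  ((true, [0, 0, 0, 0, 0, 0, 1, 0, 0, 0, 0, -2, 2]),
    (false, [0, 0, 0, 0, 0, 0, 0, 1, 0, 0, 0, -2, 2])),
  ((false, [0, 0, 0, 0, 0, 0, -2, 0, 0, 1, 0, 0, 0]),
    (false, [0, 0, 0, 0, 0, 0, -2, -1, 0, 1, 1, 0, 0])),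
  ((false, [0, 0, 0, 0, 0, 0, 1, -1, 0, -1, 1, 0, 0]),
    (true, [0, 0, 0, 0, 0, 0, 0, -1, -1, -1, 2, 0, -1])),
  ((false, [0, 0, 0, 0, 0, 0, 0, 1, -1, 0, 0, -2, 1]),
    (true, [0, 0, 0, 0, 0, 0, 1, 0, -1, 0, 0, -2, 0])),
  ((false, [0, 0, 0, 0, 0, 0, 0, -1, 1, 1, -1, 0, 0]),
    (false, [0, 0, 0, 0, 0, 0, 0, 0, 1, 1, -2, 0, -1])),
  ((true, [0, 0, 0, 0, 0, 0, 0, 1, 0, -1, 0, 0, 0]),
    (false, [0, 0, 0, 0, 0, 0, 1, 1, 1, -1, -1, 0, 0])),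
  ((true, [0, 0, 0, 0, 0, 0, 1, 0, 0, 0, 0, 0, 1]),
    (false, [0, 0, 0, 0, 0, 0, 0, 0, 1, 0, 0, 0, 1])),
  ((false, [0, 0, 0, 0, 0, 0, -2, 0, 0, 1, 0, 2, -1]),
    (false, [0, 0, 0, 0, 0, 0, -2, 0, -1, 0, 2, 0, 0])),
  ((false, [0, 0, 0, 0, 0, 0, 1, -1, 0, -1, 1, 2, -1]),
    (false, [0, 0, 0, 0, 0, 0, 0, -2, -1, 0, 2, 0, -1])),
  ((false, [0, 0, 0, 0, 0, 0, 0, 1, -1, 0, 0, 0, 0]),
    (false, [0, 0, 0, 0, 0, 0, 0, 0, -1, 0, 0, 0, -2])),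
  ((false, [0, 0, 0, 0, 0, 0, 0, -1, 1, 1, -1, 2, -1]),
    (false, [0, 0, 0, 0, 0, 0, 2, 0, 1, 0, -2, 0, -1])),
  ((true, [0, 0, 0, 0, 0, 0, 0, 1, 0, -1, 0, 2, -1]),
    (false, [0, 0, 0, 0, 0, 0, 0, 2, 1, 0, -2, 0, 0])),
  ((true, [0, 0, 0, 0, 0, 0, -1, 0, 0, 1, 0, 0, 1]),
    (false, [0, 0, 0, 0, 0, 0, -1, 0, 0, 0, 1, 0, 1])),
  ((false, [0, 0, 0, 0, 0, 0, -1, -1, 0, 0, 1, 2, -1]),
    (false, [0, 0, 0, 0, 0, 0, -1, -1, -1, 0, 2, 0, 0])),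
  ((false, [0, 0, 0, 0, 0, 0, 1, 0, -1, -1, 1, 0, 0]),
    (true, [0, 0, 0, 0, 0, 0, 0, -1, -1, 0, 1, 0, -1])),
  ((false, [0, 0, 0, 0, 0, 0, 5, 2, -2, -2, -1, -4, 1]),
    (true, [0, 0, 0, 0, 0, 0, 0, -1, -3, 2, 1, -4, 1])),
  ((false, [0, 0, 0, 0, 0, 0, 1, 2, -2, -2, 3, -4, 5]),
    (true, [0, 0, 0, 0, 0, 0, 0, 3, 1, 2, -3, -4, 5])),
  ((false, [0, 0, 0, 0, 1, 0, -1, -1, -1, 0, 1, -1, 0]),
    (false, [0, 0, 0, 0, 0, 0, -1, -1, -1, 1, 1, -1, 0])),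
  ((false, [0, 0, 0, 0, 1, 0, 0, 0, 0, -1, 0, 0, 0]),
    (true, [0, 0, 0, 0, 0, 0, 0, 1, 0, -1, 0, 1, 0])),
  ((false, [0, 0, 0, 1, 0, 0, -2, -1, 0, 1, 0, 0, 0]),
    (false, [0, 0, 0, 0, 0, 0, -1, -1, 0, 1, 0, 1, -1])),
  ((false, [0, 0, 0, 1, 0, 0, -1, -1, -1, 0, 1, -1, 0]),
    (false, [0, 0, 0, 0, 0, 0, 1, 0, -1, -1, 1, -1, 0])),
  ((false, [0, 0, 0, 1, 0, 0, -1, -1, -1, 0, 1, 0, 0]),
    (false, [0, 0, 0, 0, 0, 0, 0, -1, -1, 0, 1, 0, -1])),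
  ((false, [0, 0, 1, 0, 0, 0, 0, 0, 0, -1, 0, 0, 0]),
    (true, [0, 0, 0, 0, 0, 0, 1, 0, 0, -1, 0, 1, -1])),
  ((false, [0, 0, 1, 0, 0, 0, 0, 0, 0, 0, -1, -1, 0]),
    (false, [0, 0, 0, 0, 0, 0, 0, 0, 0, 1, -1, -1, 0])),
  ((false, [0, 1, 0, 0, 0, 0, -1, -1, -1, 0, 1, 0, 0]),
    (false, [0, 0, 0, 0, 0, 0, -1, -1, 0, 0, 1, 1, -1])),
  ((false, [0, 1, 0, 0, 0, 0, -1, -1, -1, 0, 1, 1, 0]),
    (true, [0, 0, 0, 0, 0, 0, -1, -1, -1, 0, 2, 0, 0])),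
  ((false, [0, 1, 0, 0, 0, 0, 0, 0, 0, 0, -1, 0, 0]),
    (true, [0, 0, 0, 0, 0, 0, 0, 0, 1, 0, -1, 1, -1])),
  ((false, [0, -1, 0, 0, 0, 0, 0, 1, 2, 1, -2, 0, 0]),
    (true, [0, -1, 1, 0, 0, 0, 0, 0, 1, 0, -1, 0, -1])),
  ((false, [0, -1, 0, 1, 0, 0, -1, 0, 1, 0, 0, 0, 0]),
    (true, [0, -1, 0, 0, 0, 0, 2, 1, 1, -1, -1, 0, -1])),
  ((false, [0, -1, 0, 1, 0, 0, -1, 0, 1, 1, -1, 0, 0]),
    (true, [0, -1, 0, 0, 0, 0, 1, 0, 1, 0, -1, 1, -2])),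
  ((false, [0, -1, 0, 1, 0, 0, 0, 0, 0, 0, 0, -1, 0]),
    (false, [0, -1, 1, 0, 0, 0, 0, 0, 0, 0, 0, -1, 0])),
  ((false, [0, 0, -1, 0, 0, 0, 1, 1, 1, 1, -2, 0, 0]),
    (true, [0, 0, -1, 1, 0, 0, -1, -1, 0, 1, 0, 1, -1])),
  ((false, [0, 0, -1, 0, 0, 0, 2, 1, 0, -1, 0, 0, 0]),
    (true, [0, 0, -1, 0, 0, 0, 0, 0, 1, 0, 0, 2, -1])),
  ((false, [0, 0, -1, 0, 1, 0, 0, 0, 0, 0, 0, 0, 0]),
    (true, [0, 0, -1, 0, 0, 0, 0, 0, 1, 0, 0, 3, -1])),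
  ((false, [0, 0, -1, 0, 1, 0, 1, -1, 0, 0, 0, 0, -1]),
    (false, [0, 0, -1, 0, 0, 0, 0, -1, 1, 1, 0, 2, -1])),
  ((false, [0, 0, 0, 0, -1, 0, 3, 2, 1, -1, -2, 0, 0]),
    (true, [0, 0, 0, 0, -1, 0, 0, 1, 1, 0, -1, 2, -1])),
  ((false, [0, 0, 0, 0, 0, 0, 1, 0, -1, -2, 2, 0, 0]),
    (true, [0, 1, 0, 0, 0, 0, 0, -1, -1, -1, 1, 1, -1])),
  ((false, [0, 0, 0, 0, 1, 0, -2, -1, 0, 0, 1, 0, 0]),
    (true, [0, 0, 1, 0, 0, 0, -2, 0, 0, 0, 0, 0, 0])),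
  ((false, [0, 0, 0, 0, 1, 0, -2, -1, 0, 1, 0, -1, 0]),
    (false, [0, 0, 1, 0, 0, 0, -2, -1, 0, 1, 0, -1, 0])),
  ((false, [0, 0, 0, 1, 0, 0, -1, 0, 1, 1, -2, 0, 0]),
    (true, [0, 0, 1, 0, 0, 0, 0, 0, 1, 0, -2, 1, -1])),
  ((false, [0, 0, 0, 1, 0, 0, 0, 0, 0, -1, 0, 0, 0]),
    (true, [0, 0, 0, 0, 0, 0, 0, 0, 1, -1, 0, 2, -1])),
  ((false, [0, 0, 1, -1, 0, 0, 2, 1, 0, -1, -1, -1, 0]),
    (false, [0, 0, 0, -1, 0, 0, 1, 0, -1, 0, 1, -1, 0])),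
  ((false, [0, 0, 1, 0, -1, 0, 1, 1, 1, 0, -2, 0, 0]),
    (false, [0, 0, 0, 0, -1, 0, 0, 0, 1, 1, -1, 2, -1])),
  ((false, [0, 0, 1, 0, 0, 0, -1, 0, 1, 0, -1, 0, 0]),
    (true, [0, 0, 0, 0, 1, 0, -1, -1, 0, 0, 0, 0, -1])),
  ((false, [0, 0, 1, 0, 0, 0, -1, 0, 1, 1, -2, 0, 0]),
    (true, [0, 0, 0, 0, 0, 0, -1, -1, 1, 1, -1, 2, -2])),
  ((false, [0, 0, 1, 0, 0, 0, 1, 0, -1, -1, 0, -1, 0]),
    (false, [0, 1, 0, 0, 0, 0, 0, -1, -2, 0, 1, -1, 0])),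
  ((false, [0, 1, -1, 0, 0, 0, 0, 0, 0, 1, -1, 0, 0]),
    (false, [0, 0, -1, 0, 0, 0, 0, -1, 0, 1, 0, 1, -2])),
  ((false, [0, 1, -1, 0, 0, 0, 1, 0, -1, 0, 0, 0, 0]),
    (true, [0, 0, -1, 0, 0, 0, 0, -1, -1, 1, 1, 0, -1])),
  ((false, [0, 1, 0, 0, 0, 0, 1, 0, -1, 0, -1, -1, 0]),
    (false, [0, 0, 0, 1, 0, 0, -1, -1, -1, 1, 0, -1, 0])),
  ((false, [0, -2, 1, 1, 0, 0, -1, 0, 1, 0, 0, -1, 0]),
    (false, [0, -2, 0, 0, 0, 0, 1, 1, 1, 0, 0, -1, 0])),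
  ((false, [0, -2, 1, 1, 0, 0, -1, 0, 1, 0, 0, 0, 0]),
    (true, [0, -2, 0, 0, 0, 0, 0, 0, 2, 0, 0, 2, -2])),
  ((false, [0, -1, -1, 2, 0, 0, -2, -1, 0, 1, 1, -1, 0]),
    (false, [0, -1, -1, 0, 0, 0, 2, 1, 0, -1, 1, -1, 0])),
  ((false, [0, -1, 0, 1, 0, 0, 0, 0, 0, -1, 1, 0, 0]),
    (true, [0, -1, 1, 0, 0, 0, 0, 0, 1, -1, 0, 1, -1])),
  ((false, [0, -1, 0, 2, 0, 0, -2, -1, 0, 1, 0, -1, 0]),
    (false, [0, -1, 0, 0, 0, 0, 1, 1, 1, 1, -2, -1, 0])),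
  ((false, [0, -1, 1, 1, 0, 0, -2, -1, 0, 0, 1, 0, 0]),
    (false, [0, -1, 0, 0, 0, 0, -1, -1, 0, 0, 2, 1, -1])),
  ((false, [0, -1, 1, 1, 0, 0, -1, 0, 1, 0, -1, 0, 0]),
    (true, [0, -1, 0, 0, 0, 0, 1, 1, 2, 0, -2, 1, -1])),
  ((false, [0, -1, 2, -1, 0, 0, 1, 1, 1, -1, -1, -1, 0]),
    (false, [0, -1, 0, -1, 0, 0, 1, 1, 1, 1, -1, -1, 0])),
  ((false, [0, -1, 2, -1, 0, 0, 1, 1, 1, -1, -1, 0, 0]),
    (true, [0, -1, 0, -1, 0, 0, 2, 1, 1, -1, 0, 1, -1])),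
  ((false, [0, 0, -1, 2, 0, 0, -3, -2, -1, 1, 2, 0, 0]),
    (false, [0, 0, -1, 0, 0, 0, -1, -1, 0, 0, 2, 2, -1])),
  ((false, [0, 0, 0, 0, 0, 0, 2, 2, 2, 0, -4, 0, 0]),
    (true, [0, 1, 0, 0, 0, 0, 0, 0, 1, 0, -2, 3, -1])),
  ((false, [0, 0, 0, 0, 2, 0, 0, 0, 0, -2, 0, 0, 0]),
    (true, [0, 0, 0, 0, 0, 0, 1, 2, 1, -2, -1, 2, 0])),
  ((false, [0, 0, 0, 2, 0, 0, -4, -2, 0, 2, 0, 0, 0]),
    (false, [0, 0, 0, 0, 0, 0, -2, -1, 1, 2, -1, 2, -1])),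
  ((false, [0, 0, 0, 2, 0, 0, -2, -1, 0, 0, 0, 0, 0]),
    (true, [0, 1, 0, 0, 0, 0, 1, 0, 0, -1, -1, 1, -1])),
  ((false, [0, 0, 0, 2, 0, 0, -2, -1, 0, 1, -1, 0, 0]),
    (true, [0, 0, 0, 0, 0, 0, 2, 1, 1, 0, -3, 0, -1])),
  ((false, [0, 0, 1, -1, 0, 0, 2, 1, 0, -2, 0, 0, 0]),
    (true, [0, 1, 0, -1, 0, 0, 1, 0, 0, -1, 0, 2, -1])),
  ((false, [0, 0, 1, -1, 0, 0, 3, 2, 1, -2, -2, 0, 0]),
    (true, [0, 0, 0, -1, 0, 0, 1, 1, 2, -1, -1, 3, -1])),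
  ((false, [0, 0, 1, 0, 0, 0, -3, -1, 1, 1, 0, 1, 0]),
    (true, [0, 1, 0, 0, 0, 0, -3, -2, -1, 2, 1, 0, 0])),
  ((false, [0, 0, 1, 1, 0, 0, -3, -2, -1, 0, 2, 0, 0]),
    (false, [0, 1, 0, 0, 0, 0, -2, -2, -1, 0, 2, 2, -1])),
  ((false, [0, 0, 1, 1, 0, 0, -2, -1, 0, 0, 0, 0, 0]),
    (true, [0, 0, 0, 0, 0, 0, -1, -1, 1, 0, 0, 3, -2])),
  ((false, [0, 0, 1, 1, 0, 0, -1, 0, 1, 0, -2, 0, 0]),
    (true, [0, 1, 0, 0, 0, 0, 0, 0, 1, 0, -2, 2, -1])),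
  ((false, [0, 0, 2, 0, 0, 0, -2, 0, -1, 0, 0, -2, 1]),
    (true, [0, 0, 0, 0, 0, 0, -2, -2, -2, 2, 2, -2, 0])),
  ((false, [0, 0, 2, 0, 0, 0, -1, -1, -1, -1, 1, 0, 0]),
    (false, [0, 0, 0, 0, 0, 0, -1, -2, -2, 0, 3, 0, -1])),
  ((false, [0, 0, 2, 0, 0, 0, 0, 0, 0, -2, 0, 0, 0]),
    (true, [0, 0, 0, 0, 0, 0, 1, 0, 0, -2, 1, 2, -1])),
  ((false, [0, 1, -1, 0, 0, 0, 1, 0, -1, -1, 1, 0, 0]),
    (true, [0, 0, -1, 1, 0, 0, -1, -1, 0, 0, 1, 1, -1])),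
  ((false, [0, 1, 0, -1, 0, 0, 3, 1, -1, -1, -1, -1, 0]),
    (false, [0, 0, 0, -1, 0, 0, 1, 0, -1, 1, 0, -1, 0])),
  ((false, [0, 1, 0, 0, 0, 0, 0, -1, -2, -2, 3, 0, 0]),
    (true, [0, 0, 0, 1, 0, 0, -1, -2, -1, -1, 2, 1, -2])),
  ((false, [0, 1, 0, 0, 1, 0, -3, -2, -1, 1, 1, 0, 0]),
    (true, [0, 0, 0, 0, 0, 0, -3, -2, 0, 2, 1, 1, -1])),
  ((false, [0, 1, 0, 1, 0, 0, -1, -1, -1, -1, 1, 0, 0]),
    (true, [0, 0, 0, 0, 0, 0, 1, 0, 0, -2, 1, 1, -1])),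
  ((false, [0, 1, 0, 1, 0, 0, -1, -1, -1, 0, 0, 0, 0]),
    (true, [0, 0, 1, 0, 0, 0, 1, 0, 0, -1, -1, 0, -1])),
  ((false, [0, 1, 0, 1, 0, 0, -1, -1, -1, 1, -1, -1, 0]),
    (false, [0, 0, 1, 0, 0, 0, 0, 0, 0, 1, -2, -1, 0])),
  ((false, [0, 1, 1, 0, 0, 0, -2, -1, 0, 1, -1, 0, 0]),
    (false, [0, 0, 0, 0, 0, 0, -2, -1, 1, 2, -1, 1, -1])),
  ((false, [0, 1, 1, 0, 0, 0, -1, -1, -1, 0, 0, 0, 0]),
    (false, [0, 0, 0, 1, 0, 0, -2, -2, -1, 1, 1, 0, -1])),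
  ((false, [0, 2, -1, 0, 0, 0, 0, -1, -2, 0, 1, 0, 0]),
    (false, [0, 0, -1, 0, 0, 0, 2, 0, -1, -1, 1, 0, -1])),
  ((false, [0, 2, 0, -1, 0, 0, 1, 0, -1, 0, -1, 0, 0]),
    (true, [0, 0, 0, -1, 0, 0, 1, 0, 0, 1, -1, 0, -1])),
  ((false, [0, 2, 0, 0, 0, 0, -1, -1, -1, 0, 0, 0, 0]),
    (true, [0, 0, 0, 0, 0, 0, -1, -1, 1, 0, 0, 2, -2])),
  ((false, [0, 2, 0, 0, 0, 0, -1, -1, -1, 1, -1, 0, 0]),
    (false, [0, 0, 1, 0, 0, 0, -1, -1, 0, 1, -1, 0, -1])),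
  ((false, [0, 2, 0, 0, 0, 0, 0, -1, -2, -1, 1, 0, 0]),
    (true, [0, 0, 0, 1, 0, 0, 0, -1, -1, -1, 1, 0, -1])),
  ((false, [0, 2, 0, 0, 0, 0, 0, -1, -2, 0, 0, 0, 0]),
    (false, [0, 0, 0, 0, 0, 0, 1, -1, -1, 0, 0, 0, -2])),
  ((false, [0, -2, 0, 1, 0, 0, 1, 1, 1, -1, 0, 0, 0]),
    (true, [0, -2, 0, 0, 0, 0, 0, 1, 3, 0, -1, 2, -1])),
  ((false, [0, 0, -1, 0, 0, 0, 1, 0, -1, -2, 3, 0, 0]),
    (true, [0, 0, -1, 2, 0, 0, -2, -2, -1, 0, 2, 0, -1])),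
  ((false, [0, 0, 0, -2, 0, 0, 5, 3, 1, -2, -2, 0, 0]),
    (true, [0, 1, 0, -2, 0, 0, 2, 1, 1, -1, -1, 3, -1])),
  ((false, [0, 0, 0, 0, 1, 0, 3, 2, 1, -3, -2, 0, 0]),
    (true, [0, 0, 1, 0, 0, 0, 0, 2, 2, -2, -2, 2, 0])),
  ((false, [0, 0, 0, 2, 0, 0, -3, -1, 1, 2, -2, 0, 0]),
    (true, [0, 1, 0, 0, 0, 0, -1, -1, 1, 1, -2, 3, -2])),
  ((false, [0, 0, 1, 0, 1, 0, -4, -2, 0, 1, 1, 0, 0]),
    (true, [0, 0, 0, 0, 0, 0, -4, -3, -1, 3, 2, 0, -1])),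
  ((false, [0, 2, -1, 0, 0, 0, 1, 0, -1, -1, 0, 0, 0]),
    (true, [0, 0, -1, 0, 0, 0, 0, 0, 1, -1, 1, 2, -1])),
  ((false, [0, 0, -1, 1, 0, 0, 2, 1, 0, -2, 0, 0, 0]),
    (true, [0, 1, -1, 0, 0, 0, 0, 0, 1, -1, 0, 3, -1])),
  ((false, [0, 3, 0, -1, 0, 0, -1, -1, -1, 1, -1, 1, 0]),
    (true, [0, 0, 1, -1, 0, 0, -1, 0, 1, 2, -2, 0, 0]))]

/-- relations -/
def r0 : List (Rel × List ℤ) := [
  (⟨(1, 0), (3, 5), (14, 5), some (13, 3), some (8, 3)⟩,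
    [0, 0, -61943352, 0, 0, 0, -61943352, 61943352, 0, 61943352, 0, 0, 61943352]),
  (⟨(1, 0), (5, 5), (14, 0), some (12, 3), some (6, 3)⟩,
    [0, 0, 0, 0, 0, 0, -116365480, 0, 54422128, 0, 0, 0, -61943352]),
  (⟨(1, 0), (18, 3), (38, 2), some (23, 4), some (37, 0)⟩,
    [0, 0, 61943352, 0, 0, 0, 22563672, 200872504, 193351280, -200872504, -200872504, 247773408, -61943352]),
  (⟨(3, 0), (18, 3), (33, 3), some (22, 1), some (34, 5)⟩,
    [0, 0, 61943352, 0, 0, 0, 0, 61943352, -61943352, -61943352, 0, -123886704, 61943352]),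
  (⟨(5, 0), (8, 2), (72, 4), some (71, 4), some (70, 4)⟩,
    [0, 0, 61943352, 0, 0, 0, 123886704, 185830056, 154858380, -185830056, -185830056, 123886704, 30971676]),
  (⟨(5, 0), (32, 0), (37, 4), some (35, 5), some (42, 5)⟩,
    [0, 0, -61943352, 0, 0, 0, -22563672, -200872504, -193351280, 200872504, 200872504, -247773408, 61943352]),
  (⟨(12, 0), (21, 0), (86, 1), some (83, 4), some (87, 4)⟩,
    [0, 539671248, 85330256, -200240200, 0, 0, -231770318, 323063352, 13251996, 22331252, -259545910, 111683776, 802701674]),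
  (⟨(12, 0), (23, 4), (77, 1), some (79, 4), some (78, 4)⟩,
    [0, -410666784, 63195296, -61463976, 0, 0, 50587928, -127845392, 73244496, -106137896, 391240936, 29131136, -379523208])]

/-- relations -/
def r1 : List (Rel × List ℤ) := [
  (⟨(12, 0), (25, 5), (62, 1), some (53, 4), some (63, 4)⟩,
    [0, 335227104, 61809832, -38671856, 0, 0, -1425502892, -960640880, -447952952, 817097328, 759936788, 238843368, 76060788]),
  (⟨(12, 0), (27, 4), (73, 0), some (75, 0), some (31, 2)⟩,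
    [0, -324066440, 113469800, -155451336, 0, 0, -153696758, 2226432, 173076420, 445394996, -5811654, -558003696, 170903258]),
  (⟨(12, 0), (32, 3), (84, 1), some (94, 1), some (85, 4)⟩,
    [0, -72936072, -15764480, 88700552, 0, 0, 571595454, 309179520, -135125156, -325801876, -141640098, -406845488, 119945390]),
  (⟨(12, 0), (41, 2), (73, 1), some (74, 4), some (47, 4)⟩,
    [0, -2612400, 0, 200240200, 0, 0, 188729350, 217866568, 138051116, -416352244, -139027698, 12202928, 47009318]),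
  (⟨(12, 0), (44, 4), (61, 4), some (89, 0), some (58, 1)⟩,
    [0, -64616656, -308040704, 166886616, 0, 0, 400550234, 236150400, 270847884, -323477300, -235065102, 696874680, -384927374]),
  (⟨(13, 0), (13, 5), (25, 4), some (25, 1), some (59, 2)⟩,
    [0, -302790932, -61809832, 504514368, 0, 0, 387261862, 242387754, -4942746, -584176072, 0, -141534852, -21430312]),
  (⟨(13, 0), (17, 0), (33, 5), some (42, 4), some (23, 4)⟩,
    [0, 0, -74017192, 0, 0, 0, 0, 61943352, 74017192, -61943352, 0, 283994928, -74017192]),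
  (⟨(13, 0), (19, 1), (23, 1), some (41, 1), some (39, 2)⟩,
    [0, 67229056, 104718824, -272309256, 0, 0, -887419024, -403391656, 195563400, 738079088, 178024616, 303779008, 132845720])]

/-- relations -/
def r2 : List (Rel × List ℤ) := [
  (⟨(13, 0), (24, 2), (67, 4), some (68, 4), some (55, 4)⟩,
    [0, 45954096, 218839554, -6999430, 0, 0, 75949918, 23945692, 42494854, -438182344, 0, 342992208, -194440092]),
  (⟨(13, 0), (26, 4), (68, 4), some (69, 4), some (54, 1)⟩,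
    [0, 83719440, -273195130, -807906114, 0, 0, -870847284, -881535472, -677248870, 1126010044, 1512382942, -136116096, -29144734]),
  (⟨(13, 0), (36, 0), (61, 4), some (92, 4), some (62, 4)⟩,
    [0, 408679272, 85330256, 78186064, 0, 0, -85405638, -155049024, 236093980, -133667940, -620187670, 1072999688, -522729742]),
  (⟨(14, 0), (17, 0), (38, 0), some (43, 1), some (22, 1)⟩,
    [0, 0, -22658448, 0, 0, 0, 223530952, 228083568, 74017192, -228083568, -108749480, 123886704, 34732288]),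
  (⟨(14, 0), (19, 2), (21, 2), none, some (20, 0)⟩,
    [0, -1033820784, 69963016, 767814664, 0, 0, 438182332, -355718388, 343224444, -291450424, -355856600, 534220416, -1616730256]),
  (⟨(14, 0), (40, 3), (88, 3), some (84, 1), some (86, 1)⟩,
    [0, 698593680, -171057752, -263300296, 0, 0, -286667560, -420552488, -896657608, 462204760, 518828128, -896950488, 466106896]),
  (⟨(14, 0), (59, 3), (90, 3), some (92, 1), some (63, 1)⟩,
    [0, 335227104, 61809832, -504514368, 0, 0, -785527084, -640652976, -360886304, 584176072, 731658100, 238843368, -11005860]),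
  (⟨(15, 0), (65, 5), (66, 0), some (95, 2), some (74, 1)⟩,
    [0, 0, 0, 0, 0, 0, -394194350, -220478968, 62189084, 221336844, 141640098, 188037272, -47009318])]

/-- relations -/
def r3 : List (Rel × List ℤ) := [
  (⟨(17, 0), (17, 1), (18, 2), some (60, 2), some (18, 2)⟩,
    [0, 0, -61943352, 0, 7521224, 0, -11281836, -7521224, -65703964, 0, 100436252, 61943352, 0]),
  (⟨(17, 0), (47, 3), (76, 3), some (93, 3), some (66, 3)⟩,
    [0, 0, 27211064, 0, 0, 0, 85986400, 144961144, 119334088, -144961144, -149513760, 123886704, -39284904]),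
  (⟨(19, 0), (19, 2), (61, 2), some (20, 3), some (20, 5)⟩,
    [0, 166140224, -87340920, -118393432, 0, 0, 159394366, 6732886, -207871946, 0, 57100032, 98760052, 0]),
  (⟨(19, 0), (30, 2), (53, 2), some (67, 3), some (31, 1)⟩,
    [0, 324066440, 23520424, -232620120, 0, 0, 792849446, 636926256, 78004812, -582385220, -496350810, 169932240, 217168198]),
  (⟨(19, 0), (39, 2), (92, 2), some (69, 2), some (64, 2)⟩,
    [0, 310244840, -23520424, -558231408, 0, 0, -1120521990, -881535472, -201048764, 1126010044, 559982730, 316934704, -255670134]),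
  (⟨(20, 0), (22, 4), (86, 4), some (49, 3), some (82, 1)⟩,
    [0, 665120616, -69963016, -34645224, 0, 0, -1090033332, -601224288, -619795896, 615782256, 595477948, -378421224, 631267356]),
  (⟨(20, 0), (24, 0), (30, 2), some (73, 5), some (32, 5)⟩,
    [0, 310019376, -18391520, -123345776, 0, 0, 56170934, 81683280, -741167276, -106906396, 592648982, -938728392, 786419550]),
  (⟨(20, 0), (25, 3), (78, 2), some (39, 2), some (27, 2)⟩,
    [0, 326344584, -513205880, 356983176, 0, 0, 142317032, 293240816, 177202880, -199835488, -413693008, 825486664, 19188312])]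

/-- relations -/
def r4 : List (Rel × List ℤ) := [
  (⟨(20, 0), (40, 1), (65, 1), some (58, 3), some (41, 1)⟩,
    [0, 64616656, 356915560, -674781000, 0, 0, 156219006, 66671648, -16900692, 69530108, 137315390, -286730008, 179855038]),
  (⟨(21, 0), (22, 3), (55, 3), some (29, 3), some (27, 3)⟩,
    [0, -257066232, 28926816, 201531840, 0, 0, -11379726, 126148728, 440305156, 76240988, -509530518, 267482968, -238571326]),
  (⟨(21, 0), (32, 3), (88, 3), some (50, 3), some (82, 1)⟩,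
    [0, -237083304, 126366456, 34645224, 0, 0, 549189140, 387205632, 462180680, -345360160, -651881388, 378421224, -360845260]),
  (⟨(22, 0), (22, 2), (72, 2), some (23, 3), some (23, 5)⟩,
    [0, 171718864, -836619552, 166886616, 0, 0, 407133712, 196153948, -194070992, 0, 253979676, 289831888, 117301824]),
  (⟨(22, 0), (24, 3), (80, 3), some (44, 3), some (36, 1)⟩,
    [0, 64616656, 458407536, -166886616, 0, 0, -1016009906, -701243240, 344611788, 938936972, -530761402, 233311000, -545258306]),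
  (⟨(24, 0), (24, 1), (26, 3), some (84, 3), some (26, 3)⟩,
    [0, 360794062, -155293272, -352000848, 0, 0, -825975922, -697444916, -383083854, 788006636, 660468226, -143943494, 0]),
  (⟨(24, 0), (25, 3), (49, 1), some (54, 1), some (67, 1)⟩,
    [0, -487111456, 494371592, 524673152, 0, 0, -1196058690, -793087264, -125563308, 144202876, 676457510, -244938256, -202609178]),
  (⟨(24, 0), (26, 1), (55, 1), some (50, 1), some (54, 1)⟩,
    [0, -106786384, 37391414, -103904418, 0, 0, 781104560, 513354360, 653672326, -450003228, -904389298, 716524380, -593898222])]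

/-- relations -/
def r5 : List (Rel × List ℤ) := [
  (⟨(25, 0), (38, 2), (76, 2), some (80, 2), some (42, 2)⟩,
    [0, 0, 27211064, 0, 0, 0, -86185808, 30179672, 119334088, -30179672, -92123024, 181277440, -96675640]),
  (⟨(25, 0), (88, 5), (95, 5), some (96, 2), some (94, 3)⟩,
    [0, 72936072, 15764480, -88700552, 0, 0, -571595454, -309179520, 135125156, 325801876, 141640098, 406845488, -119945390]),
  (⟨(28, 0), (30, 4), (49, 2), some (62, 3), some (78, 3)⟩,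
    [0, -76032400, 23520424, -803360, 0, 0, 1308273966, 864422496, 684046932, -801280700, -1230639890, 684671752, -449305962]),
  (⟨(28, 0), (47, 4), (81, 5), some (78, 3), some (87, 3)⟩,
    [0, -193553056, -85330256, 200240200, 0, 0, -88197706, -176154424, -39402164, -22331252, 259545910, -111683776, -162765626]),
  (⟨(28, 0), (65, 1), (90, 1), some (68, 3), some (81, 3)⟩,
    [0, 64616656, 61809832, -346935040, 0, 0, -367644060, -335801072, -439675968, 471144952, 618626980, -572987976, 259604588]),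
  (⟨(29, 0), (45, 4), (48, 4), some (50, 3), some (46, 1)⟩,
    [0, 20604160, 28926816, 0, 0, 0, 114013562, 126148728, 162634764, -125290852, -231860126, 191344416, -86294222]),
  (⟨(30, 0), (36, 4), (86, 4), some (96, 1), some (85, 1)⟩,
    [0, -72936072, -15764480, 88700552, 0, 0, 571595454, 309179520, -135125156, -325801876, -141640098, -406845488, 119945390]),
  (⟨(35, 0), (43, 0), (93, 0), some (91, 3), some (60, 3)⟩,
    [0, 0, 61943352, 0, 34732288, 0, 104196864, 193351280, 158618992, -228083568, -193351280, 123886704, 0])]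

/-- relations -/
def r6 : List (Rel × List ℤ) := [
  (⟨(36, 0), (39, 2), (40, 2), some (45, 3), some (79, 5)⟩,
    [0, -633977024, 527973312, 0, 0, 0, 442886566, 487224136, 507210836, -431609276, -381512738, -134871680, 86294222]),
  (⟨(39, 0), (46, 0), (55, 2), some (81, 5), some (71, 5)⟩,
    [0, 0, -116988688, 0, 0, 0, -114013562, -193606440, -162634764, 213352724, 211255966, -123886704, -48621202]),
  (⟨(39, 0), (75, 2), (77, 2), some (89, 4), some (81, 5)⟩,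
    [0, 64616656, 113469800, -294322320, 0, 0, -14825774, -108714696, -465418788, -193100212, 882495666, -696874680, 448645226]),
  (⟨(48, 0), (55, 1), (88, 1), some (80, 3), some (66, 3)⟩,
    [0, 101691152, -28926816, 0, 0, 0, 8281750, -126148728, -284930076, 125290852, 109564814, -313639728, 86294222]),
  (⟨(49, 0), (51, 0), (57, 2), some (64, 2), some (73, 2)⟩,
    [0, -20647784, -41295568, 0, 0, 0, 61943352, 20647784, 0, -41295568, 41295568, 0, -20647784]),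
  (⟨(52, 0), (64, 4), (72, 4), some (80, 1), some (68, 1)⟩,
    [0, 151071080, -359253264, 166886616, 0, 0, 61943352, 30971676, -348929372, 130423296, 197858292, -359253264, 348929372]),
  (⟨(53, 0), (54, 5), (81, 5), some (79, 3), some (83, 3)⟩,
    [0, 362201712, 85330256, -620978120, 0, 0, 188967602, 323063352, 101986764, 531803940, -680283830, 111683776, 293228986]),
  (⟨(56, 0), (72, 5), (77, 5), none, some (57, 1)⟩,
    [0, 20647784, -41295568, 0, 0, 0, -20647784, -20647784, 0, 41295568, 0, 41295568, -20647784])]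

/-- relations -/
def r7 : List (Rel × List ℤ) := [
  (⟨(61, 0), (64, 2), (68, 2), some (77, 2), some (73, 2)⟩,
    [0, -177922392, 135369528, -249601912, 0, 0, -775093330, -384040040, -519006460, 962624140, 716545454, -1279499616, 711849766])]

/-- trivial elements -/
def t0 : List (ℕ × ℤ × ℤ) := [
  (1, -340688436, 262815856), (3, -123886704, 61943352), (5, 0, 15042448), (6, 116365480, -54422128),
  (8, -61943352, 154858380), (12, -113054260, -370087262), (13, -792290016, -138964936), (14, 464903488, -1250783636),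
  (15, 78838870, -31829552), (17, -15042448, -145065776), (18, 15042448, 247773408), (19, 532132984, -1522386472),
  (20, -528812704, 87120056), (21, 331397400, 214611996), (22, 1089193568, -676139624), (23, -1369364440, 493012040),
  (24, 200991652, -1232108736), (25, 36651816, -291670588), (26, -531082300, -564753488), (27, 169318520, -428662896),
  (28, 147498200, -352467000), (29, 201531840, 76138552), (30, 19770432, -2627040), (31, 251081232, -388071456),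
  (32, 577195928, -607463032), (33, 0, 135960544), (34, 0, -61943352), (35, -27211064, 61943352),
  (36, -972706656, 1034336880), (38, 0, 57390736)]

/-- trivial elements -/
def t1 : List (ℕ × ℤ × ℤ) := [
  (39, 223261296, 116990704), (40, 411480704, -372546080), (41, 252196736, 350515208), (42, -108749480, 108749480),
  (43, 84601800, 34732288), (44, 150366832, 465092840), (45, 556900128, -613372864), (46, 20604160, 67457712),
  (47, -190940656, 249059848), (48, -122295312, 0), (49, 489224568, -550536840), (50, 128225750, -73379370),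
  (51, 0, 30971676), (52, -208182184, 359253264), (53, 174843072, -471934904), (54, -815505564, 713662764),
  (55, -298436828, 295802228), (56, 20647784, -10323892), (57, -41295568, 41295568), (58, -253947192, 205072336),
  (59, -199132611, 32436172), (60, -21126756, -92915028), (61, -56932100, -195807350), (62, -58830640, -149484568),
  (63, -232921256, 87066648), (64, -476847648, 618590528), (65, 295105728, 32740232), (66, 1715752, -101691152),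
  (67, 299052462, -208999112), (68, 350608564, -577544184)]

/-- trivial elements -/
def t2 : List (ℕ × ℤ × ℤ) := [
  (69, -249674706, -226525400), (70, -30971676, 92915028), (71, -27522668, 17649526), (72, -249007036, 241951440),
  (73, -187135512, 229435400), (74, -2612400, -197627800), (75, -388683096, 138870984), (76, 0, 57390736),
  (77, -126832168, 673699424), (78, 619490712, -685251856), (79, -682442096, 676498864), (80, -134644368, -389622688),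
  (81, 168648656, -368125200), (82, 214018656, -270422096), (83, 88734768, -509472688), (84, -205367845, 173080753),
  (86, 323040192, -517595824), (87, -173059096, 319968024), (88, 317355624, -100977976), (89, 258288756, -63717852),
  (90, 191820784, -270610448), (91, 34732288, 61943352), (92, 12234512, 383697008), (93, -34732288, 39284904),
  (95, -88700552, 72936072)]

/-- the relations and the trivial elements -/
def D : Id3 where
  rels := [r0, r1, r2, r3, r4, r5, r6, r7]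
  triv := [t0, t1, t2]

/-- the class pulled back from `t = 1` -/
def Lp : List Tm := [
  ⟨68, 5, [0, 0, -2, 2, 0, 0, -1, -1, -1, 0, 2, 0, 0]⟩,
  ⟨50, 5, [0, 0, -1, 1, 0, 0, 1, 0, -1, -2, 2, 0, 0]⟩,
  ⟨64, 0, [0, -4, 0, 0, 0, 0, 1, 1, 3, 0, 0, 0, -2]⟩,
  ⟨80, 0, [0, -2, 2, 0, 0, 0, 0, 1, 1, 0, -1, -2, 1]⟩,
  ⟨51, 4, [0, -1, 1, 0, 0, 0, 0, 1, 0, 1, -1, -3, 2]⟩,
  ⟨52, 4, [0, 0, 0, -4, 0, 0, 6, 3, 1, -2, -1, 0, -1]⟩,
  ⟨77, 0, [0, 2, 0, -2, 0, 0, 1, 0, 0, 0, -1, 2, -1]⟩,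
  ⟨56, 4, [0, 1, 0, -1, 0, 0, -1, -1, 1, 1, -1, 3, -2]⟩,
  ⟨73, 3, [0, 0, -4, 0, 0, 0, 1, 0, 0, 2, 1, 0, -1]⟩]

/-- the class of the table, with the auxiliary generators -/
def Lx' : List Tm := [
  ⟨1, 0, [0, 0, 0, 0, 0, 0, 0, 0, 8, -7, 2, 8, -2]⟩,
  ⟨5, 0, [0, 0, 0, 0, 0, 0, 0, 0, 1, 0, 0, -4, 1]⟩,
  ⟨8, 0, [0, 0, 0, 0, 0, 0, 0, 0, 0, -2, 2, 0, 0]⟩,
  ⟨12, 0, [0, 0, 0, 0, 0, 0, 0, 0, 1, 0, 0, 4, 1]⟩,
  ⟨15, 0, [0, 0, 0, 0, 0, 0, 0, -1, 0, 0, 1, 0, 0]⟩]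

/-- the class of the table -/
def Lx : List Tm := [
  ⟨1, 0, [0, 0, 8, -7, 2, 8, -2]⟩,
  ⟨5, 0, [0, 0, 1, 0, 0, -4, 1]⟩,
  ⟨8, 0, [0, 0, 0, -2, 2, 0, 0]⟩,
  ⟨12, 0, [0, 0, 1, 0, 0, 4, 1]⟩,
  ⟨15, 0, [0, -1, 0, 0, 1, 0, 0]⟩]

/-- the exponents of the generators of the curve `t = 1` -/
def S : List (List ℤ) := [
  [0, 0, 1, 1, 0, 0, -1, 0, -1, 0, 0, -2, 2],
  [0, 0, 0, 0, 0, 0, 1, 1, -1, 0, 0, -2, 2],
  [0, 2, 0, 0, 0, 0, 0, 0, -2, 0, 0, -2, 2],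
  [0, 0, 0, 2, 0, 0, -1, 0, -2, 0, 1, -3, 3],
  [0, 1, 0, 1, 0, 0, -1, 0, -2, 1, 0, -3, 3],
  [0, 0, 0, 0, 0, 0, 0, 0, 0, 0, 0, 1, 0]]

end Pool.Agent.PB6
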