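import Pool.Agent.Lib_helper2.K4N.EngR

set_option autoImplicit false

/-!
The regulator of a class that is pulled back from an isogenous curve: the class is a sum over the
translates of a point `(p(x, y), q(x, y))` of the second curve, and the loop is a circle of the
first.
-/

namespace Pool.Agent.K4N

open Filter Topology Pool.Agent.TN
open scoped TensorProduct

section enginePB

variable {k F : Type*} [Field k] [Field F] [Algebra k F] {x y : F}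

/-- The pulled-back engine, with one inequality for the whole sum. -/
theorem engPB0 [CharZero k] [CharZero F] (φ : k →+* ℝ) (b c b1 c1 : ℚ) (hb1 : b1 ≠ 0)
    (h : Gen (b : k) (c : k) x y)
    (htop : IntermediateField.adjoin k {x, y} = ⊤)
    (p q : Q2) (h1 : Gen (b1 : k) (c1 : k) (p.ev x y) (q.ev x y))
    (nz0 : List Q2) (hnz0 : ∀ e ∈ nz0, e.ev x y ≠ 0)
    (C0 C1 : ℝ → ℝ → Prop) (circ : Circ (b : ℝ) (c : ℝ) C0)
    (μ : ℝ) (hμ : 0 < μ)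
    (hpq : ∀ U V : ℝ, V ^ 2 + (1 - (c : ℝ)) * U * V - b * V = U ^ 3 - b * U ^ 2 →
      (∀ e ∈ nz0, e.ev U V ≠ 0) → C0 U V → p.ok U V ∧ q.ok U V ∧
      p.dv (b : ℝ) c U V = μ * (2 * q.ev U V + (1 - (c1 : ℝ)) * p.ev U V - b1) ∧
      q.dv (b : ℝ) c U V = μ * (3 * p.ev U V ^ 2 - 2 * b1 * p.ev U V - (1 - (c1 : ℝ)) * q.ev U V) ∧
      (q.ev U V) ^ 2 + (1 - (c1 : ℝ)) * p.ev U V * q.ev U V - b1 * q.ev U V =
        p.ev U V ^ 3 - b1 * p.ev U V ^ 2 ∧ C1 (p.ev U V) (q.ev U V))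
    {ι : Type*} [Fintype ι] (f u : ι → Q2) (j l : ι → ℕ) (N : ℕ) (hjN : ∀ i, j i < N)
    (_hlN : ∀ i, l i < N) (nz : List Q2)
    (hnz : ∀ x' y' : F, Gen (b1 : k) (c1 : k) x' y' → ∀ e ∈ nz, e.ev x' y' ≠ 0)
    (hfu : ∀ x' y' : F, Gen (b1 : k) (c1 : k) x' y' → ∀ i, (f i).ev x' y' ≠ 0 ∧
      (f i).ev x' y' ≠ 1 ∧ (u i).ev x' y' ≠ 0)
    (hok : ∀ i, ∀ U V : ℝ, (∀ e ∈ nz, e.ev U V ≠ 0) → (f i).ok U V)
    (hpos : ∀ U V : ℝ, V ^ 2 + (1 - (c1 : ℝ)) * U * V - b1 * V = U ^ 3 - b1 * U ^ 2 →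
      C1 U V → (∀ n < N, (It (b1 : ℝ) n (U, V)).1 ≠ 0 ∧
        ∀ e ∈ nz, e.ev (It (b1 : ℝ) n (U, V)).1 (It (b1 : ℝ) n (U, V)).2 ≠ 0) →
      (∀ i, (f i).ev (It (b1 : ℝ) (j i) (U, V)).1 (It (b1 : ℝ) (j i) (U, V)).2 ≠ 0 ∧
        (f i).ev (It (b1 : ℝ) (j i) (U, V)).1 (It (b1 : ℝ) (j i) (U, V)).2 ≠ 1) →
      0 < ∑ i, -(Rf ((f i).ev (It (b1 : ℝ) (j i) (U, V)).1 (It (b1 : ℝ) (j i) (U, V)).2)) *
        (f i).dv (b1 : ℝ) c1 (It (b1 : ℝ) (j i) (U, V)).1 (It (b1 : ℝ) (j i) (U, V)).2 *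
        Real.log ((u i).ev (It (b1 : ℝ) (l i) (U, V)).1 (It (b1 : ℝ) (l i) (U, V)).2)) :
    RZ φ x y circ.X circ.Y
      (∑ i, K4M.hk (K4M.sy ((f i).ev (It (b1 : F) (j i) (p.ev x y, q.ev x y)).1
        (It (b1 : F) (j i) (p.ev x y, q.ev x y)).2))
        (K4M.lg ((u i).ev (It (b1 : F) (l i) (p.ev x y, q.ev x y)).1
          (It (b1 : F) (l i) (p.ev x y, q.ev x y)).2))) := by
  obtain ⟨X, Y, κ, mX, mY, hfin, hκ, hOK, hcomp⟩ := circ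
  have eb1 : algebraMap k F (b1 : k) = (b1 : F) := map_ratCast _ b1
  have hbk1 : (b1 : k) ≠ 0 := by exact_mod_cast hb1
  have hg : ∀ n, Gen (b1 : k) (c1 : k) (It (b1 : F) n (p.ev x y, q.ev x y)).1
      (It (b1 : F) n (p.ev x y, q.ev x y)).2 := by
    intro n
    have := gen_It hbk1 h1 n
    rwa [eb1] at this
  have hER : ∀ s, TN.Eqn (TN.Wt (b : k) (c : k)) φ (X s) (Y s) := by
    intro s
    show Y s ^ 2 + φ (1 - c) * X s * Y s + φ (-b) * Y s =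
      X s ^ 3 + φ (-b) * X s ^ 2 + φ 0 * X s + φ 0
    simp only [map_zero, map_one, map_neg, map_sub, map_ratCast]
    linear_combination (hOK s).eq
  obtain ⟨R, ρ, P, hR, hRx, hRy, hRc, hP, hP0⟩ := exists_reg φ h.eqn ((TN.Tr_iff x).mp h.tr) htop
    mX mY hER hfin
  set X1 : ℝ → ℝ := fun s => p.ev (X s) (Y s) with hX1
  set Y1 : ℝ → ℝ := fun s => q.ev (X s) (Y s) with hY1
  -- the iterates
  have hIt : ∀ n, R (It (b1 : F) n (p.ev x y, q.ev x y)).1 =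
      ((fun s => (It (b1 : ℝ) n (X1 s, Y1 s)).1 : ℝ → ℝ) : VG) ∧
      R (It (b1 : F) n (p.ev x y, q.ev x y)).2 =
      ((fun s => (It (b1 : ℝ) n (X1 s, Y1 s)).2 : ℝ → ℝ) : VG) := by
    intro n
    induction n with
    | zero => exact ⟨Q2.R_ev hR hRx hRy p, Q2.R_ev hR hRx hRy q⟩
    | succ n ih =>
      obtain ⟨i1, i2⟩ := ih
      have hRb : R (b1 : F) = ((fun _ => (b1 : ℝ) : ℝ → ℝ) : VG) := Q2.R_rat R b1
      constructor
      · have := R_div hR (R_mul hRb i2) (R_pow i1 2)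
        simp only [It_succ]
        exact this
      · have e1 : R ((It (b1 : F) n (p.ev x y, q.ev x y)).1 ^ 2 -
            (It (b1 : F) n (p.ev x y, q.ev x y)).2) =
            ((fun s => (It (b1 : ℝ) n (X1 s, Y1 s)).1 ^ 2 - (It (b1 : ℝ) n (X1 s, Y1 s)).2 :
              ℝ → ℝ) : VG) := by
          rw [map_sub, R_pow i1 2, i2, ← Germ.coe_sub]
          rfl
        have := R_div hR (R_mul (R_pow hRb 2) e1) (R_pow i1 3)
        simp only [It_succ]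
        exact this
  -- nonvanishing
  have hn0 : ∀ n, ∀ᶠ s in cofinite, (It (b1 : ℝ) n (X1 s, Y1 s)).1 ≠ 0 := by
    intro n
    have h1 := rep_of hR (hIt n).1
    filter_upwards [ρ.ne _ (hg n).x_ne, h1] with s a b
    rwa [← b]
  have hn : ∀ n, ∀ᶠ s in cofinite, ∀ e ∈ nz,
      e.ev (It (b1 : ℝ) n (X1 s, Y1 s)).1 (It (b1 : ℝ) n (X1 s, Y1 s)).2 ≠ 0 := by
    intro n
    have key : ∀ l : List Q2, (∀ e ∈ l, e ∈ nz) → ∀ᶠ s in cofinite, ∀ e ∈ l,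
        e.ev (It (b1 : ℝ) n (X1 s, Y1 s)).1 (It (b1 : ℝ) n (X1 s, Y1 s)).2 ≠ 0 := by
      intro l
      induction l with
      | nil =>
        intro _
        exact Eventually.of_forall fun s e he => absurd he (List.not_mem_nil)
      | cons e l ih =>
        intro hl
        have h1 := ih fun e' he' => hl e' (List.mem_cons_of_mem _ he')
        have h2 := Q2.ev_ne hR (hIt n).1 (hIt n).2
          (hnz _ _ (hg n) e (hl e List.mem_cons_self))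
        filter_upwards [h1, h2] with s a b e' he'
        rcases List.mem_cons.mp he' with rfl | he'
        · exact b
        · exact a e' he'
    exact key nz fun _ h => h
  have hnn : ∀ᶠ s in cofinite, ∀ e ∈ nz0, e.ev (X s) (Y s) ≠ 0 := by
    have key : ∀ l : List Q2, (∀ e ∈ l, e ∈ nz0) → ∀ᶠ s in cofinite, ∀ e ∈ l,
        e.ev (X s) (Y s) ≠ 0 := by
      intro l
      induction l with
      | nil =>
        intro _
        exact Eventually.of_forall fun s e he => absurd he (List.not_mem_nil)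
      | cons e l ih =>
        intro hl
        have h1 := ih fun e' he' => hl e' (List.mem_cons_of_mem _ he')
        have h2 := Q2.ev_ne hR hRx hRy (hnz0 e (hl e List.mem_cons_self))
        filter_upwards [h1, h2] with s a b e' he'
        rcases List.mem_cons.mp he' with rfl | he'
        · exact b
        · exact a e' he'
    exact key nz0 fun _ h => h
  -- all indices up to a bound
  have hall : ∀ᶠ s in cofinite, ∀ n ∈ Finset.range N, ((It (b1 : ℝ) n (X1 s, Y1 s)).1 ≠ 0 ∧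
      ∀ e ∈ nz, e.ev (It (b1 : ℝ) n (X1 s, Y1 s)).1 (It (b1 : ℝ) n (X1 s, Y1 s)).2 ≠ 0) := by
    rw [Finset.eventually_all]
    intro n _
    filter_upwards [hn0 n, hn n] with s a b
    exact ⟨a, b⟩
  refine ⟨P, hP, fun c hc => (hP0 c).mpr (ρ.KK_le hR hRc c hc), fun hz => ?_⟩
  refine reg_ne ρ
    (fun i => (f i).ev (It (b1 : F) (j i) (p.ev x y, q.ev x y)).1
      (It (b1 : F) (j i) (p.ev x y, q.ev x y)).2)
    (fun i => (u i).ev (It (b1 : F) (l i) (p.ev x y, q.ev x y)).1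
      (It (b1 : F) (l i) (p.ev x y, q.ev x y)).2)
    (fun i => (hfu _ _ (hg _) i).1) (fun i => (hfu _ _ (hg _) i).2.1)
    (fun i => (hfu _ _ (hg _) i).2.2)
    (fun i s => (f i).ev (It (b1 : ℝ) (j i) (X1 s, Y1 s)).1 (It (b1 : ℝ) (j i) (X1 s, Y1 s)).2)
    (fun i s => (u i).ev (It (b1 : ℝ) (l i) (X1 s, Y1 s)).1 (It (b1 : ℝ) (l i) (X1 s, Y1 s)).2)
    (fun i => rep_of hR (Q2.R_ev hR (hIt _).1 (hIt _).2 _))
    (fun i => rep_of hR (Q2.R_ev hR (hIt _).1 (hIt _).2 _)) (fun _ => 0) Ex.zero ?_ ((hP0 _).mp hz)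
  have hf01 : ∀ᶠ s in cofinite, ∀ i ∈ (Finset.univ : Finset ι),
      ((f i).ev (It (b1 : ℝ) (j i) (X1 s, Y1 s)).1 (It (b1 : ℝ) (j i) (X1 s, Y1 s)).2 ≠ 0 ∧
       (f i).ev (It (b1 : ℝ) (j i) (X1 s, Y1 s)).1 (It (b1 : ℝ) (j i) (X1 s, Y1 s)).2 ≠ 1) := by
    rw [Finset.eventually_all]
    intro i _
    have h1 := rep_of hR (Q2.R_ev hR (hIt (j i)).1 (hIt (j i)).2 (f i))
    filter_upwards [ρ.ne _ (hfu _ _ (hg (j i)) i).1, ρ.ne_one (hfu _ _ (hg (j i)) i).2.1, h1]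
      with s a b d
    rw [← d]
    exact ⟨a, b⟩
  filter_upwards [hall, hcomp, hf01, hnn] with s hs hc hf h0
  -- the point, its translates
  obtain ⟨op, oq, dp, dq, he, hC1⟩ := hpq (X s) (Y s) (hOK s).eq h0 hc
  have hOK1 : OKp (b1 : ℝ) c1 (μ * κ s) X1 Y1 s := by
    refine ⟨he, (Q2.deriv_ev (hOK s) p op).congr_deriv ?_,
      (Q2.deriv_ev (hOK s) q oq).congr_deriv ?_⟩
    · rw [dp]
      ring
    · rw [dq]
      ring
  have hOKn : ∀ n, n < N → OKp (b1 : ℝ) c1 (μ * κ s) (fun t => (It (b1 : ℝ) n (X1 t, Y1 t)).1)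
      (fun t => (It (b1 : ℝ) n (X1 t, Y1 t)).2) s := by
    intro n hn
    exact OK_It hOK1 n fun i hi => (hs i (Finset.mem_range.mpr (hi.trans hn))).1
  have hterm : ∀ i, -(Rf ((f i).ev (It (b1 : ℝ) (j i) (X1 s, Y1 s)).1
      (It (b1 : ℝ) (j i) (X1 s, Y1 s)).2)) *
      deriv (fun s => (f i).ev (It (b1 : ℝ) (j i) (X1 s, Y1 s)).1
        (It (b1 : ℝ) (j i) (X1 s, Y1 s)).2) s *
      Real.log ((u i).ev (It (b1 : ℝ) (l i) (X1 s, Y1 s)).1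
        (It (b1 : ℝ) (l i) (X1 s, Y1 s)).2) =
      (μ * κ s) * (-(Rf ((f i).ev (It (b1 : ℝ) (j i) (X1 s, Y1 s)).1
        (It (b1 : ℝ) (j i) (X1 s, Y1 s)).2)) *
        (f i).dv (b1 : ℝ) c1 (It (b1 : ℝ) (j i) (X1 s, Y1 s)).1
          (It (b1 : ℝ) (j i) (X1 s, Y1 s)).2 *
        Real.log ((u i).ev (It (b1 : ℝ) (l i) (X1 s, Y1 s)).1
          (It (b1 : ℝ) (l i) (X1 s, Y1 s)).2)) := by
    intro i
    have g1 := hs (j i) (Finset.mem_range.mpr (hjN i))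
    have h2 := Q2.deriv_ev (hOKn (j i) (hjN i)) (f i) (hok i _ _ g1.2)
    rw [h2.deriv]
    ring
  simp only [hterm]
  rw [zero_add, ← Finset.mul_sum]
  refine mul_pos (mul_pos hμ (hκ s)) (hpos _ _ he hC1
    (fun n hn => hs n (Finset.mem_range.mpr hn)) fun i => hf i (Finset.mem_univ i))

/-- **The pulled-back engine.** -/
theorem engPB [CharZero k] [CharZero F] (φ : k →+* ℝ) (b c b1 c1 : ℚ) (hb1 : b1 ≠ 0)
    (h : Gen (b : k) (c : k) x y)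
    (htop : IntermediateField.adjoin k {x, y} = ⊤)
    (p q : Q2) (h1 : Gen (b1 : k) (c1 : k) (p.ev x y) (q.ev x y))
    (nz0 : List Q2) (hnz0 : ∀ e ∈ nz0, e.ev x y ≠ 0)
    (C : ℕ → ℝ → ℝ → Prop) (C0 : ℝ → ℝ → Prop) (circ : Circ (b : ℝ) (c : ℝ) C0)
    (μ : ℝ) (hμ : 0 < μ)
    (hpq : ∀ U V : ℝ, V ^ 2 + (1 - (c : ℝ)) * U * V - b * V = U ^ 3 - b * U ^ 2 →
      (∀ e ∈ nz0, e.ev U V ≠ 0) → C0 U V → p.ok U V ∧ q.ok U V ∧
      p.dv (b : ℝ) c U V = μ * (2 * q.ev U V + (1 - (c1 : ℝ)) * p.ev U V - b1) ∧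
      q.dv (b : ℝ) c U V = μ * (3 * p.ev U V ^ 2 - 2 * b1 * p.ev U V - (1 - (c1 : ℝ)) * q.ev U V) ∧
      (q.ev U V) ^ 2 + (1 - (c1 : ℝ)) * p.ev U V * q.ev U V - b1 * q.ev U V =
        p.ev U V ^ 3 - b1 * p.ev U V ^ 2 ∧ C 0 (p.ev U V) (q.ev U V))
    {ι : Type*} [Fintype ι] (f u : ι → Q2) (j : ι → ℕ) (nz : List Q2)
    (hnz : ∀ x' y' : F, Gen (b1 : k) (c1 : k) x' y' → ∀ e ∈ nz, e.ev x' y' ≠ 0)
    (hfu : ∀ x' y' : F, Gen (b1 : k) (c1 : k) x' y' → ∀ i, (f i).ev x' y' ≠ 0 ∧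
      (f i).ev x' y' ≠ 1 ∧ (u i).ev x' y' ≠ 0)
    (hok : ∀ i, ∀ U V : ℝ, (∀ e ∈ nz, e.ev U V ≠ 0) → (f i).ok U V)
    (hC : ∀ n, ∀ U V : ℝ, V ^ 2 + (1 - (c1 : ℝ)) * U * V - b1 * V = U ^ 3 - b1 * U ^ 2 →
      U ≠ 0 → (∀ e ∈ nz, e.ev U V ≠ 0) → C n U V →
      C (n + 1) (b1 * V / U ^ 2) (b1 ^ 2 * (U ^ 2 - V) / U ^ 3))
    (hge : ∀ i, ∀ U V : ℝ, V ^ 2 + (1 - (c1 : ℝ)) * U * V - b1 * V = U ^ 3 - b1 * U ^ 2 →
      U ≠ 0 → (∀ e ∈ nz, e.ev U V ≠ 0) → C (j i) U V →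
      (f i).dv (b1 : ℝ) c1 U V * Real.log ((u i).ev U V) ≤ 0)
    (i0 : ι)
    (hgt : ∀ U V : ℝ, V ^ 2 + (1 - (c1 : ℝ)) * U * V - b1 * V = U ^ 3 - b1 * U ^ 2 → U ≠ 0 →
      (∀ e ∈ nz, e.ev U V ≠ 0) → C (j i0) U V →
      (f i0).dv (b1 : ℝ) c1 U V * Real.log ((u i0).ev U V) < 0) :
    RZ φ x y circ.X circ.Y
      (∑ i, K4M.hk (K4M.sy ((f i).ev (It (b1 : F) (j i) (p.ev x y, q.ev x y)).1
        (It (b1 : F) (j i) (p.ev x y, q.ev x y)).2))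
        (K4M.lg ((u i).ev (It (b1 : F) (j i) (p.ev x y, q.ev x y)).1
          (It (b1 : F) (j i) (p.ev x y, q.ev x y)).2))) := by
  have hjN : ∀ i, j i < Finset.univ.sup j + 1 :=
    fun i => Nat.lt_succ_of_le (Finset.le_sup (Finset.mem_univ i))
  refine engPB0 φ b c b1 c1 hb1 h htop p q h1 nz0 hnz0 C0 (C 0) circ μ hμ hpq f u j j
    (Finset.univ.sup j + 1) hjN hjN nz hnz hfu hok ?_
  intro U V he hC0 hs hf
  -- the translates are on the curve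
  have hEq : ∀ n, n < Finset.univ.sup j + 1 →
      (It (b1 : ℝ) n (U, V)).2 ^ 2 + (1 - (c1 : ℝ)) * (It (b1 : ℝ) n (U, V)).1 *
        (It (b1 : ℝ) n (U, V)).2 - b1 * (It (b1 : ℝ) n (U, V)).2 =
        (It (b1 : ℝ) n (U, V)).1 ^ 3 - b1 * (It (b1 : ℝ) n (U, V)).1 ^ 2 ∧
      C n (It (b1 : ℝ) n (U, V)).1 (It (b1 : ℝ) n (U, V)).2 := by
    intro n
    induction n with
    | zero => intro _; exact ⟨he, hC0⟩
    | succ n ih =>
      intro hn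
      have hn' : n < Finset.univ.sup j + 1 := by omega
      obtain ⟨e1, e2⟩ := ih hn'
      have g := hs n hn'
      rw [It_succ]
      refine ⟨?_, hC n _ _ e1 g.1 g.2 e2⟩
      have hx := g.1
      show ((b1 : ℝ) ^ 2 * ((It (b1 : ℝ) n (U, V)).1 ^ 2 - (It (b1 : ℝ) n (U, V)).2) /
          (It (b1 : ℝ) n (U, V)).1 ^ 3) ^ 2 + (1 - (c1 : ℝ)) *
          (b1 * (It (b1 : ℝ) n (U, V)).2 / (It (b1 : ℝ) n (U, V)).1 ^ 2) *
          ((b1 : ℝ) ^ 2 * ((It (b1 : ℝ) n (U, V)).1 ^ 2 - (It (b1 : ℝ) n (U, V)).2) /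
          (It (b1 : ℝ) n (U, V)).1 ^ 3) -
          b1 * ((b1 : ℝ) ^ 2 * ((It (b1 : ℝ) n (U, V)).1 ^ 2 - (It (b1 : ℝ) n (U, V)).2) /
          (It (b1 : ℝ) n (U, V)).1 ^ 3) =
        (b1 * (It (b1 : ℝ) n (U, V)).2 / (It (b1 : ℝ) n (U, V)).1 ^ 2) ^ 3 -
          b1 * (b1 * (It (b1 : ℝ) n (U, V)).2 / (It (b1 : ℝ) n (U, V)).1 ^ 2) ^ 2
      generalize (It (b1 : ℝ) n (U, V)).1 = A at *
      generalize (It (b1 : ℝ) n (U, V)).2 = B at *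
      field_simp
      linear_combination (A ^ 2 - B) * e1
  have hterm : ∀ i, 0 ≤ -(Rf ((f i).ev (It (b1 : ℝ) (j i) (U, V)).1
      (It (b1 : ℝ) (j i) (U, V)).2)) *
      (f i).dv (b1 : ℝ) c1 (It (b1 : ℝ) (j i) (U, V)).1 (It (b1 : ℝ) (j i) (U, V)).2 *
      Real.log ((u i).ev (It (b1 : ℝ) (j i) (U, V)).1 (It (b1 : ℝ) (j i) (U, V)).2) ∧
      (i = i0 → 0 < -(Rf ((f i).ev (It (b1 : ℝ) (j i) (U, V)).1
      (It (b1 : ℝ) (j i) (U, V)).2)) *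
      (f i).dv (b1 : ℝ) c1 (It (b1 : ℝ) (j i) (U, V)).1 (It (b1 : ℝ) (j i) (U, V)).2 *
      Real.log ((u i).ev (It (b1 : ℝ) (j i) (U, V)).1 (It (b1 : ℝ) (j i) (U, V)).2)) := by
    intro i
    have g := hs (j i) (hjN i)
    obtain ⟨e1, e2⟩ := hEq (j i) (hjN i)
    have hR := Rf_pos (hf i).1 (hf i).2
    have e : ∀ r d l : ℝ, -r * d * l = r * (-(d * l)) := by
      intro r d l; ring
    rw [e]
    constructor
    · exact mul_nonneg hR.le (neg_nonneg.mpr (hge i _ _ e1 g.1 g.2 e2))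
    · rintro rfl
      exact mul_pos hR (neg_pos.mpr (hgt _ _ e1 g.1 g.2 e2))
  exact Finset.sum_pos' (fun i _ => (hterm i).1) ⟨i0, Finset.mem_univ _, (hterm i0).2 rfl⟩

end enginePB

end Pool.Agent.K4N
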