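import Pool.Agent.Lib_helper40.PB.Eng
import Pool.Agent.Lib_helper2.K4N.Q6X

set_option autoImplicit false

/-!
The regulator for points of order six at `t = -1/5`: pull-back from `t = 1`.
-/

namespace Pool.Agent.K4N

open Filter Topology Pool.Agent.TN
open scoped TensorProduct

/-- `5 x + 1` -/
def s6e : Q2 := .c 5 * .x + .c 1

/-- `2 y + (6/5) x + 4/25` -/
def w6e : Q2 := .c 2 * .y + .c (6 / 5) * .x + .c (4 / 25)

/-- the first coordinate of the isogeny -/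
def p6e : Q2 := (.c 5 * (s6e * s6e) + .c 2 * s6e + .c 1) / (.c 4 * s6e)

/-- the second coordinate of the isogeny -/
def q6e : Q2 := .c 1 + (.c 25 * (w6e * (.c 5 * (s6e * s6e) - .c 1))) / (.c 16 * (s6e * s6e))

section ev

variable {K : Type*} [Field K] [CharZero K] (U V : K)

lemma s6e_ev : s6e.ev U V = 5 * U + 1 := by
  show ((5 : ℚ) : K) * U + ((1 : ℚ) : K) = _
  push_cast
  ring

lemma w6e_ev : w6e.ev U V = 2 * V + 6 / 5 * U + 4 / 25 := by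
  show ((2 : ℚ) : K) * V + ((6 / 5 : ℚ) : K) * U + ((4 / 25 : ℚ) : K) = _
  push_cast
  ring

lemma p6e_ev : p6e.ev U V = (5 * (5 * U + 1) ^ 2 + 2 * (5 * U + 1) + 1) / (4 * (5 * U + 1)) := by
  show (((5 : ℚ) : K) * (s6e.ev U V * s6e.ev U V) + ((2 : ℚ) : K) * s6e.ev U V + ((1 : ℚ) : K)) /
    (((4 : ℚ) : K) * s6e.ev U V) = _
  rw [s6e_ev]
  push_cast
  ring

lemma q6e_ev : q6e.ev U V = 1 + 25 * ((2 * V + 6 / 5 * U + 4 / 25) * (5 * (5 * U + 1) ^ 2 - 1)) /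
    (16 * (5 * U + 1) ^ 2) := by
  show ((1 : ℚ) : K) + (((25 : ℚ) : K) * (w6e.ev U V * (((5 : ℚ) : K) *
    (s6e.ev U V * s6e.ev U V) - ((1 : ℚ) : K)))) / (((16 : ℚ) : K) *
    (s6e.ev U V * s6e.ev U V)) = _
  rw [s6e_ev, w6e_ev]
  push_cast
  ring

lemma s6e_ok : s6e.ok U V := ⟨⟨trivial, trivial⟩, trivial⟩

lemma w6e_ok : w6e.ok U V := ⟨⟨⟨trivial, trivial⟩, trivial, trivial⟩, trivial⟩

lemma p6e_ok (hs : 5 * U + 1 ≠ 0) : p6e.ok U V := by
  refine ⟨⟨⟨⟨trivial, s6e_ok U V, s6e_ok U V⟩, trivial, s6e_ok U V⟩, trivial⟩,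
    ⟨trivial, s6e_ok U V⟩, ?_⟩
  show ((4 : ℚ) : K) * s6e.ev U V ≠ 0
  rw [s6e_ev]
  exact mul_ne_zero (by norm_num) hs

lemma q6e_ok (hs : 5 * U + 1 ≠ 0) : q6e.ok U V := by
  refine ⟨trivial, ⟨trivial, w6e_ok U V, ⟨trivial, s6e_ok U V, s6e_ok U V⟩, trivial⟩,
    ⟨trivial, s6e_ok U V, s6e_ok U V⟩, ?_⟩
  show ((16 : ℚ) : K) * (s6e.ev U V * s6e.ev U V) ≠ 0
  rw [s6e_ev]
  exact mul_ne_zero (by norm_num) (mul_ne_zero hs hs)

/-- the isogeny maps the curve to the curve -/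
lemma eq6e (hs : 5 * U + 1 ≠ 0)
    (he : V ^ 2 + (1 - -1 / 5) * U * V - -4 / 25 * V = U ^ 3 - -4 / 25 * U ^ 2) :
    (q6e.ev U V) ^ 2 + (1 - 1) * p6e.ev U V * q6e.ev U V - 2 * q6e.ev U V =
      p6e.ev U V ^ 3 - 2 * p6e.ev U V ^ 2 := by
  rw [p6e_ev, q6e_ev]
  field_simp
  linear_combination (4000000 * (5 * (5 * U + 1) ^ 2 - 1) ^ 2) * he

lemma s6e_dv (b c : K) : s6e.dv b c U V = 5 * (2 * V + (1 - c) * U - b) := by
  show (0 * U + ((5 : ℚ) : K) * (2 * V + (1 - c) * U - b)) + 0 = _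
  push_cast
  ring

lemma w6e_dv (b c : K) : w6e.dv b c U V =
    2 * (3 * U ^ 2 - 2 * b * U - (1 - c) * V) + 6 / 5 * (2 * V + (1 - c) * U - b) := by
  show (0 * V + ((2 : ℚ) : K) * (3 * U ^ 2 - 2 * b * U - (1 - c) * V)) +
    (0 * U + ((6 / 5 : ℚ) : K) * (2 * V + (1 - c) * U - b)) + 0 = _
  push_cast
  ring

lemma p6e_dv (hs : 5 * U + 1 ≠ 0) : p6e.dv (-4 / 25) (-1 / 5) U V =
    2 / 5 * (2 * q6e.ev U V + (1 - 1) * p6e.ev U V - 2) := by
  have e : p6e.dv (-4 / 25) (-1 / 5) U V =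
      (((0 * (s6e.ev U V * s6e.ev U V) + ((5 : ℚ) : K) *
        (s6e.dv (-4 / 25) (-1 / 5) U V * s6e.ev U V + s6e.ev U V *
          s6e.dv (-4 / 25) (-1 / 5) U V)) + (0 * s6e.ev U V + ((2 : ℚ) : K) *
          s6e.dv (-4 / 25) (-1 / 5) U V) + 0) *
        (((4 : ℚ) : K) * s6e.ev U V) - (((5 : ℚ) : K) * (s6e.ev U V * s6e.ev U V) +
          ((2 : ℚ) : K) * s6e.ev U V + ((1 : ℚ) : K)) *
        (0 * s6e.ev U V + ((4 : ℚ) : K) * s6e.dv (-4 / 25) (-1 / 5) U V)) /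
        (((4 : ℚ) : K) * s6e.ev U V) ^ 2 := rfl
  rw [e, q6e_ev, p6e_ev, s6e_dv, s6e_ev]
  push_cast
  field_simp
  ring

lemma q6e_dv (hs : 5 * U + 1 ≠ 0)
    (he : V ^ 2 + (1 - -1 / 5) * U * V - -4 / 25 * V = U ^ 3 - -4 / 25 * U ^ 2) :
    q6e.dv (-4 / 25) (-1 / 5) U V =
    2 / 5 * (3 * p6e.ev U V ^ 2 - 2 * 2 * p6e.ev U V - (1 - 1) * q6e.ev U V) := by
  have e : q6e.dv (-4 / 25) (-1 / 5) U V =
      0 + ((0 * (w6e.ev U V * (((5 : ℚ) : K) * (s6e.ev U V * s6e.ev U V) - ((1 : ℚ) : K))) +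
        ((25 : ℚ) : K) * (w6e.dv (-4 / 25) (-1 / 5) U V * (((5 : ℚ) : K) *
          (s6e.ev U V * s6e.ev U V) - ((1 : ℚ) : K)) + w6e.ev U V *
          ((0 * (s6e.ev U V * s6e.ev U V) + ((5 : ℚ) : K) *
          (s6e.dv (-4 / 25) (-1 / 5) U V * s6e.ev U V + s6e.ev U V *
            s6e.dv (-4 / 25) (-1 / 5) U V)) - 0))) *
        (((16 : ℚ) : K) * (s6e.ev U V * s6e.ev U V)) -
        (((25 : ℚ) : K) * (w6e.ev U V * (((5 : ℚ) : K) * (s6e.ev U V * s6e.ev U V) -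
          ((1 : ℚ) : K)))) * (0 * (s6e.ev U V * s6e.ev U V) + ((16 : ℚ) : K) *
          (s6e.dv (-4 / 25) (-1 / 5) U V * s6e.ev U V + s6e.ev U V *
            s6e.dv (-4 / 25) (-1 / 5) U V))) /
        (((16 : ℚ) : K) * (s6e.ev U V * s6e.ev U V)) ^ 2 := rfl
  rw [e, p6e_ev, w6e_dv, s6e_dv, w6e_ev, s6e_ev]
  push_cast
  field_simp
  linear_combination (160000000 : K) * he

end ev

/-- the circle -/
noncomputable def circ6e : Circ ((-4 / 25 : ℚ) : ℝ) ((-1 / 5 : ℚ) : ℝ)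
    (fun U _ => -1 / 5 < U) := by
  refine mkCirc _ _ (-1 / 5) (32 / 25) (16 / 125) _ ?_ ?_ ?_
  · intro x
    push_cast
    ring
  · intro x hx
    nlinarith [sq_nonneg (x + 4 / 25)]
  · intro s hs V _
    have := sq_pos_of_ne_zero hs
    show -1 / 5 < -1 / 5 + s ^ 2
    linarith

section field

variable {k F : Type*} [Field k] [Field F] [Algebra k F] {x y : F}

lemma s_ne [CharZero F] (h : Gen ((-4 / 25 : ℚ) : k) ((-1 / 5 : ℚ) : k) x y) :
    5 * x + 1 ≠ 0 := by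
  have h1 := h.xc_ne ((-1 / 5 : ℚ) : k)
  rw [map_ratCast] at h1
  push_cast at h1
  intro e
  apply h1
  have h5 : (5 : F) ≠ 0 := by norm_num
  apply mul_left_cancel₀ h5
  linear_combination e

/-- the image is a generic point -/
lemma gen6e [CharZero k] [CharZero F] (h : Gen ((-4 / 25 : ℚ) : k) ((-1 / 5 : ℚ) : k) x y) :
    Gen ((2 : ℚ) : k) ((1 : ℚ) : k) (p6e.ev x y) (q6e.ev x y) := by
  have hs := s_ne h
  have he := h.eq
  simp only [map_ratCast] at he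
  push_cast at he
  constructor
  · simp only [map_ratCast]
    push_cast
    exact eq6e x y hs he
  · rw [Tr_iff]
    have htr := (Tr_iff x).mp h.tr
    intro halg
    apply htr
    set z := p6e.ev x y with hz
    rw [p6e_ev, eq_div_iff (mul_ne_zero (by norm_num) hs)] at hz
    clear_value z
    have hc : ∀ c : k, IsAlgebraic k (algebraMap k F c) := fun c => isAlgebraic_algebraMap c
    have hn : ∀ n : ℕ, IsAlgebraic k ((n : ℕ) : F) := by
      intro n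
      have := hc (n : k)
      rwa [map_natCast] at this
    refine alg_of_quad (A := ((125 : ℕ) : F)) (B := ((60 : ℕ) : F) - ((20 : ℕ) : F) * z)
      (C := ((8 : ℕ) : F) - ((4 : ℕ) : F) * z) (hn _)
      ((hn _).sub ((hn _).mul halg)) ((hn _).sub ((hn _).mul halg)) (by norm_num) ?_
    push_cast
    linear_combination -hz

/-- **The regulator of the class pulled back from `t = 1`.** -/
theorem rz6e [CharZero k] (φ : k →+* ℝ) (h : Gen (-4 / 25 : k) (-1 / 5) x y)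
    (htop : IntermediateField.adjoin k {x, y} = ⊤) :
    RZ φ x y circ6e.X circ6e.Y (xiS (2 : F) (p6e.ev x y) (q6e.ev x y) f6a u6a) := by
  have : CharZero F := charZero_of_injective_algebraMap (algebraMap k F).injective
  have h' : Gen ((-4 / 25 : ℚ) : k) ((-1 / 5 : ℚ) : k) x y := by push_cast; exact h
  have e2F : ((2 : ℚ) : F) = 2 := by norm_num
  have key := engPB φ (-4 / 25) (-1 / 5) 2 1 (by norm_num) h' htop p6e q6e (gen6e h') []
    (by simp) C6a (fun U _ => -1 / 5 < U) circ6e (2 / 5) (by norm_num) ?_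
    (fun i : Fin 3 × Fin 3 => f6a i.2) (fun i => u6a i.2) (fun i => 2 * i.1.val) nz6a ?_ ?_ ?_ ?_ ?_
    (0, 2) ?_
  · rw [e2F] at key
    exact key
  · intro U V he _ hU
    have hs : 0 < 5 * U + 1 := by
      have : -1 / 5 < U := hU
      linarith
    push_cast at he ⊢
    refine ⟨p6e_ok U V hs.ne', q6e_ok U V hs.ne', p6e_dv U V hs.ne',
      q6e_dv U V hs.ne' he, eq6e U V hs.ne' he, ?_⟩
    show (if 0 % 2 = 0 then 1 < p6e.ev U V else p6e.ev U V < 1)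
    rw [if_pos rfl, p6e_ev, one_lt_div (by linarith)]
    nlinarith [sq_nonneg (5 * U + 1)]
  · intro x' y' hg
    obtain ⟨a1, a2, a3, a4, a5, a6⟩ := nz6a_ne hg
    simp only [nz6a, List.mem_cons, List.not_mem_nil, or_false, forall_eq_or_imp, forall_eq,
      Q2.ev_x, Q2.ev_y, Q2.ev_c, Q2.ev_sub, Q2.ev_add]
    push_cast
    exact ⟨a1, a2, a3, a4, a5, a6⟩
  · intro x' y' hg i
    obtain ⟨a1, a2, a3, a4, a5, a6⟩ := nz6a_ne hg
    have a0 := hg.x_ne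
    have h2 : (2 : F) ≠ 0 := two_ne_zero
    have h4 : (4 : F) ≠ 0 := by norm_num
    obtain ⟨i, m⟩ := i
    fin_cases m
    · show x' / ((2 : ℚ) : F) ≠ 0 ∧ x' / ((2 : ℚ) : F) ≠ 1 ∧ (((2 : ℚ) : F) - y') / y' ≠ 0
      rw [e2F]
      refine ⟨div_ne_zero a0 h2, fun e => a4 ?_, div_ne_zero a6 a1⟩
      rw [div_eq_one_iff_eq h2] at e
      rw [e, sub_self]
    · show x' ≠ 0 ∧ x' ≠ 1 ∧ ((((2 : ℚ) : F) - y') * (y' - x')) / ((x' + y' - ((2 : ℚ) : F)) * y') ≠ 0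
      rw [e2F]
      refine ⟨a0, sub_ne_zero.mp a3, div_ne_zero (mul_ne_zero a6 a2) (mul_ne_zero a5 a1)⟩
    · show (x' + y' - ((2 : ℚ) : F)) / (y' - x') ≠ 0 ∧ (x' + y' - ((2 : ℚ) : F)) / (y' - x') ≠ 1 ∧
        (((4 : ℚ) : F) * ((x' - ((1 : ℚ) : F)) * (x' - ((1 : ℚ) : F)))) / (x' - ((2 : ℚ) : F)) ≠ 0
      rw [e2F]
      push_cast
      refine ⟨div_ne_zero a5 a2, fun e => a3 ?_,
        div_ne_zero (mul_ne_zero h4 (mul_ne_zero a3 a3)) a4⟩
      rw [div_eq_one_iff_eq a2] at e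
      have : 2 * (x' - 1) = 0 := by linear_combination e
      rcases mul_eq_zero.mp this with h9 | h9
      · exact absurd h9 h2
      · exact h9
  · intro i U V hnz
    obtain ⟨a1, a2, a3, a4, a5, a6⟩ := real6a U V hnz
    obtain ⟨i, m⟩ := i
    fin_cases m
    · exact ⟨trivial, trivial, by show ((2 : ℚ) : ℝ) ≠ 0; norm_num⟩
    · exact trivial
    · exact ⟨⟨⟨trivial, trivial⟩, trivial⟩, ⟨trivial, trivial⟩, a2⟩
  · intro n U V he hU hnz hC
    obtain ⟨a1, a2, a3, a4, a5, a6⟩ := real6a U V hnz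
    push_cast at he ⊢
    have hk : (U - 1) * (2 * V - U ^ 2) = -(V - U) ^ 2 := by linear_combination he
    have hs : 0 < (V - U) ^ 2 := by positivity
    have hU2 : 0 < U ^ 2 := by positivity
    unfold C6a at hC ⊢
    rcases Nat.mod_two_eq_zero_or_one n with hn | hn
    · have hn' : (n + 1) % 2 ≠ 0 := by omega
      rw [if_pos hn] at hC
      rw [if_neg hn', div_lt_one hU2]
      nlinarith
    · have hn' : (n + 1) % 2 = 0 := by omega
      rw [if_neg (by omega)] at hC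
      rw [if_pos hn', one_lt_div hU2]
      nlinarith
  · intro i U V he hU hnz hC
    obtain ⟨a1, a2, a3, a4, a5, a6⟩ := real6a U V hnz
    have hU1 : 1 < U := by
      unfold C6a at hC
      rwa [if_pos (by omega)] at hC
    obtain ⟨i, m⟩ := i
    push_cast at he
    fin_cases m
    · show ((2 * V + (1 - ((1 : ℚ) : ℝ)) * U - ((2 : ℚ) : ℝ)) * ((2 : ℚ) : ℝ) - U * 0) /
        ((2 : ℚ) : ℝ) ^ 2 * Real.log ((((2 : ℚ) : ℝ) - V) / V) ≤ 0
      push_cast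
      have e : ((2 * V + (1 - 1) * U - 2) * 2 - U * 0) / 2 ^ 2 = V - 1 := by ring
      rw [e]
      rcases le_total 1 V with h1 | h1
      · exact mul_nonpos_of_nonneg_of_nonpos (by linarith) (log_div_nonpos (by nlinarith))
      · exact mul_nonpos_of_nonpos_of_nonneg (by linarith) (log_div_nonneg (by nlinarith))
    · show (2 * V + (1 - ((1 : ℚ) : ℝ)) * U - ((2 : ℚ) : ℝ)) *
        Real.log (((((2 : ℚ) : ℝ) - V) * (V - U)) / ((U + V - ((2 : ℚ) : ℝ)) * V)) ≤ 0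
      push_cast
      have e : 2 * V + (1 - 1) * U - 2 = 2 * (V - 1) := by ring
      rw [e]
      have e1 : (U + V - 2) ^ 2 - (V - U) ^ 2 = 4 * ((V - 1) * (U - 1)) := by ring
      have e2 : V ^ 2 - (2 - V) ^ 2 = 4 * (V - 1) := by ring
      rcases le_total 1 V with h1 | h1
      · refine mul_nonpos_of_nonneg_of_nonpos (by linarith) (log_div_nonpos ?_)
        rw [mul_pow, mul_pow, mul_comm ((U + V - 2) ^ 2)]
        have p1 : 0 ≤ (V - 1) * (U - 1) := mul_nonneg (by linarith) (by linarith)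
        exact mul_le_mul (by linarith) (by linarith) (sq_nonneg _) (sq_nonneg _)
      · refine mul_nonpos_of_nonpos_of_nonneg (by linarith) (log_div_nonneg ?_)
        rw [mul_pow, mul_pow, mul_comm ((U + V - 2) ^ 2)]
        have p1 : (V - 1) * (U - 1) ≤ 0 := mul_nonpos_of_nonpos_of_nonneg (by linarith) (by linarith)
        exact mul_le_mul (by linarith) (by linarith) (sq_nonneg _) (sq_nonneg _)
    · have := str6a he a2 a4 hU1
      show (((2 * V + (1 - ((1 : ℚ) : ℝ)) * U - ((2 : ℚ) : ℝ)) +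
        (3 * U ^ 2 - 2 * ((2 : ℚ) : ℝ) * U - (1 - ((1 : ℚ) : ℝ)) * V) - 0) * (V - U) -
        (U + V - ((2 : ℚ) : ℝ)) * ((3 * U ^ 2 - 2 * ((2 : ℚ) : ℝ) * U -
        (1 - ((1 : ℚ) : ℝ)) * V) - (2 * V + (1 - ((1 : ℚ) : ℝ)) * U - ((2 : ℚ) : ℝ)))) /
        (V - U) ^ 2 * Real.log ((((4 : ℚ) : ℝ) * ((U - ((1 : ℚ) : ℝ)) * (U - ((1 : ℚ) : ℝ)))) /
          (U - ((2 : ℚ) : ℝ))) ≤ 0
      push_cast
      exact this.le
  · intro U V he hU hnz hC
    obtain ⟨a1, a2, a3, a4, a5, a6⟩ := real6a U V hnz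
    have hU1 : 1 < U := by
      unfold C6a at hC
      rwa [if_pos (by decide)] at hC
    push_cast at he
    have := str6a he a2 a4 hU1
    show (((2 * V + (1 - ((1 : ℚ) : ℝ)) * U - ((2 : ℚ) : ℝ)) +
        (3 * U ^ 2 - 2 * ((2 : ℚ) : ℝ) * U - (1 - ((1 : ℚ) : ℝ)) * V) - 0) * (V - U) -
        (U + V - ((2 : ℚ) : ℝ)) * ((3 * U ^ 2 - 2 * ((2 : ℚ) : ℝ) * U -
        (1 - ((1 : ℚ) : ℝ)) * V) - (2 * V + (1 - ((1 : ℚ) : ℝ)) * U - ((2 : ℚ) : ℝ)))) /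
        (V - U) ^ 2 * Real.log ((((4 : ℚ) : ℝ) * ((U - ((1 : ℚ) : ℝ)) * (U - ((1 : ℚ) : ℝ)))) /
          (U - ((2 : ℚ) : ℝ))) < 0
    push_cast
    exact this

end field

end Pool.Agent.K4N
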