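import Pool.Agent.Lib_helper87.AX.R

set_option autoImplicit false

/-!
# Substitution of monomials in an element
-/

namespace Pool.Agent.PBS

open MK4 KC72 AX

/-- substitution of exponents -/
def subV : List (List ℤ) → List ℤ → List ℤ
  | s :: S, e :: a => axpy e s (subV S a)
  | _, _ => []

/-- the terms of two lists agree after a substitution -/
def subS (S : List (List ℤ)) (cls0 : List (Mo × Mo)) :
    List Tm → List (Mo × Mo) → List Tm → Bool
  | [], _, [] => true
  | t0 :: L0, cls, t :: L =>
    eqM (oo cls (t.c, t.s)) ((oo cls0 (t0.c, t0.s)).1, subV S (oo cls0 (t0.c, t0.s)).2) &&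
      isZ (axpy (-1) t.u (subV S t0.u)) && subS S cls0 L0 cls L
  | _, _, _ => false

section

variable {F : Type*} [Field F]

lemma evl_sub {g : List F} (hg : ∀ x ∈ g, x ≠ 0) (S : List (List ℤ)) (a : List ℤ) :
    evl g (subV S a) = evl (S.map (evl g)) a := by
  induction S generalizing a with
  | nil => simp [subV]
  | cons s S ih =>
    cases a with
    | nil => simp [subV]
    | cons e a => rw [subV, evl_axpy hg, ih, List.map_cons, evl_cons]

lemma ev_sub {g : List F} (hg : ∀ x ∈ g, x ≠ 0) (S : List (List ℤ)) (a : Mo) :
    ev g (a.1, subV S a.2) = ev (S.map (evl g)) a := by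
  unfold ev
  rw [evl_sub hg]

/-- the elements agree -/
theorem zt_subS {g : List F} (hg : ∀ x ∈ g, x ≠ 0) {S : List (List ℤ)}
    {cls0 cls : List (Mo × Mo)} {L0 L : List Tm} (h : subS S cls0 L0 cls L = true) :
    zt g cls L = zt (S.map (evl g)) cls0 L0 := by
  induction L0 generalizing L with
  | nil =>
    cases L with
    | nil => rfl
    | cons t L => exact absurd h (by simp [subS])
  | cons t0 L0 ih =>
    cases L with
    | nil => exact absurd h (by simp [subS])
    | cons t L =>
      simp only [subS, Bool.and_eq_true] at h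
      obtain ⟨⟨h1, h2⟩, h3⟩ := h
      have e1 := ev_eqM hg h1
      rw [ev_sub hg] at e1
      have h4 : eqM (false, t.u) (false, subV S t0.u) = true := by
        unfold eqM
        simpa using h2
      have e2 := ev_eqM hg h4
      have e3 : ∀ v : List ℤ, ev g (false, v) = evl g v := by
        intro v; simp [ev]
      rw [e3, e3, evl_sub hg] at e2
      rw [zt, zt, ih h3, e1, e2]

end

end Pool.Agent.PBS
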