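import Pool.Agent.Lib_helper40.PB.Chk
import Pool.Agent.Lib_helper40.PB.Sub
import Pool.Agent.Lib_helper40.PB.Six
import Pool.Agent.Lib_helper24.FAM.LK6
import Pool.Agent.Lib_helper60.N6S.K

set_option autoImplicit false
set_option maxRecDepth 100000

/-!
# `t = -1/5`: the regulator of the class of the table is not zero
-/

namespace Pool.Agent.PB6

open MK4 KC72 AX PBS TN K4N FK4
open Pool.Agent.N6 (G6)
open Pool.Agent.N6S (glS clsS2)

lemma chk_pad : padS E.length (clsS2.take 16) Lx pool Lx' = true := by decide +kernel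

lemma chk_sub : subS S Pool.Agent.N6.cls1 L6a pool Lp = true := by decide +kernel

section

variable {F : Type*} [Field F] [CharZero F]

/-- the generators -/
def gv (x y : F) : List F := [3, y + 3 / 5 * x + 2 / 25, y + 2 / 5 * x, y + 4 / 5 * x + 4 / 25,
  y + 2 * x + 8 / 25, y + 6 / 5 * x + 24 / 125, x, x + 4 / 25, x + 1 / 5, y, y + 1 / 5 * x, 2, 5]

lemma gv_eq (x y : F) : E.map (El.v x y) ++ G.map (El.v x y) = gv x y := by
  have h5 : (5 : F) ≠ 0 := by norm_num
  have h25 : (25 : F) ≠ 0 := by norm_num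
  have h125 : (125 : F) ≠ 0 := by norm_num
  simp only [E, G, gv, List.map_cons, List.map_nil, List.cons_append, List.nil_append, El.v, pev]
  push_cast
  simp only [List.cons.injEq, and_true]
  refine ⟨?_, ?_, ?_, ?_, ?_, ?_, ?_, ?_, ?_, ?_, ?_, ?_, ?_⟩ <;> field_simp <;> ring

lemma gen_eq {x y : F} (hx : x ≠ 0) (h1 : x + 1 / 5 ≠ 0)
    (he : y ^ 2 + (1 - -1 / 5) * x * y - -4 / 25 * y = x ^ 3 - -4 / 25 * x ^ 2) :
    S.map (evl (gv x y)) = [p6e.ev x y, p6e.ev x y - 2, p6e.ev x y - 1, q6e.ev x y,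
      q6e.ev x y - p6e.ev x y, 2] := by
  have hs : 5 * x + 1 ≠ 0 := fun h => h1 (by linear_combination h / 5)
  have e1 : x + 1 / 5 = (5 * x + 1) / 5 := by ring
  simp only [S, gv, List.map_cons, List.map_nil, evl, zpow_neg, zpow_ofNat, pow_zero,
    pow_one, one_mul, mul_one, List.cons.injEq, and_true]
  rw [p6e_ev, q6e_ev, e1]
  refine ⟨?_, ?_, ?_, ?_, ?_⟩
  · field_simp
    linear_combination (12500 : F) * he
  · rw [eq_sub_iff_add_eq, eq_div_iff (mul_ne_zero (by norm_num) hs), add_mul]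
    have e2 : ((5 * x + 1) / 5)⁻¹ * (5 * x + 1) = 5 := by
      rw [inv_div, div_mul_cancel₀ _ hs]
    linear_combination (25 * x * (x + 4 / 25)) * e2
  · field_simp
    linear_combination (1562500 : F) * he
  · field_simp
    linear_combination (25000000 + 93750000 * x + 156250000 * y) * he
  · field_simp
    linear_combination (50000000 + 125000000 * x + 625000000 * y) * he

end

section

variable {k F : Type*} [Field k] [Field F] [Algebra k F] {x y : F}

lemma xi6a_eq [CharZero F] (p q : F) : xi6a p q = -xiS 2 p q f6a u6a := by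
  refine xiS_eq 2 p q f6a u6a term6a fun p q => ?_
  rw [Fin.sum_univ_three]
  show term6a p q = -(MK4.hk (MK4.sy (p / ((2 : ℚ) : F))) (MK4.lg ((((2 : ℚ) : F) - q) / q)) +
    MK4.hk (MK4.sy p) (MK4.lg (((((2 : ℚ) : F) - q) * (q - p)) / ((p + q - ((2 : ℚ) : F)) * q))) +
    MK4.hk (MK4.sy ((p + q - ((2 : ℚ) : F)) / (q - p)))
      (MK4.lg ((((4 : ℚ) : F) * ((p - ((1 : ℚ) : F)) * (p - ((1 : ℚ) : F)))) /
        (p - ((2 : ℚ) : F)))))
  push_cast
  unfold term6a psi6
  have e1 : q / (2 - q) = ((2 - q) / q)⁻¹ := by rw [inv_div]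
  have e2 : -((p + q - 2) / (q - 1 * p)) * q / (2 - q) =
      -(((2 - q) * (q - p)) / ((p + q - 2) * q))⁻¹ := by
    rw [inv_div, one_mul]
    simp only [div_eq_mul_inv, mul_inv]
    ring
  have e3 : (p - 2) / (4 * (p - 1) ^ 2) = ((4 * ((p - 1) * (p - 1))) / (p - 2))⁻¹ := by
    rw [inv_div, pow_two]
  rw [e1, e2, e3, TN.lgneg, TN.lginv, TN.lginv, TN.lginv, TN.hk_neg_right, TN.hk_neg_right,
    TN.hk_neg_right, one_mul, neg_add, neg_add]

/-- **The regulator of the class of the table is not zero at `t = -1/5`.** -/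
theorem regNe [CharZero k] {t : k} (ht : 5 * t = -1) (φ : k →+* ℝ) (h : G6 t x y)
    (htop : IntermediateField.adjoin k {x, y} = ⊤) :
    RegNe φ (zt (glS 2 t x y) (clsS2.take 16) Lx) := by
  have : CharZero F := charZero_of_injective_algebraMap (algebraMap k F).injective
  have h5 : (5 : k) ≠ 0 := by norm_num
  have et : t = -1 / 5 := by
    apply mul_left_cancel₀ h5
    rw [ht]
    norm_num
  have eb : t ^ 2 + t = -4 / 25 := by
    rw [et]
    norm_num
  have hg : Gen (-4 / 25 : k) (-1 / 5) x y := by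
    have h1 : Gen (t ^ 2 + t) t x y := h
    rwa [eb, et] at h1
  have hq : Gen ((-4 / 25 : ℚ) : k) ((-1 / 5 : ℚ) : k) x y := by
    push_cast
    exact hg
  have he := hq.eq
  simp only [map_ratCast] at he
  push_cast at he
  have hC : C.Eq x y := by
    unfold Cv.Eq C
    simp only [pev]
    push_cast
    linear_combination 25 * he
  -- the generators
  have hv := gv_eq x y
  have hne := pool_ok.ne' h.tr hC
  have hS := pool_ok.sols h.tr hC
  have hm := msk (k := k) x y (E ++ G)
  rw [List.map_append (f := El.v x y)] at hm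
  have hx : x ≠ 0 := h.x_ne
  have h1 : x + 1 / 5 ≠ 0 := by
    have h2 := h.xc_ne t
    rw [et, map_div₀, map_neg, map_one, map_ofNat] at h2
    intro e
    apply h2
    linear_combination e
  have hgl : G.map (El.v x y) = glS 2 t x y := by
    have hT : algebraMap k F t = -1 / 5 := by
      rw [et, map_div₀, map_neg, map_one, map_ofNat]
    have hB : algebraMap k F (t ^ 2 + t) = -4 / 25 := by
      rw [eb, map_div₀, map_neg, map_ofNat, map_ofNat]
    have hp : ((Pool.Agent.N6S.pr 2 : ℕ) : F) = 5 := by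
      show ((5 : ℕ) : F) = 5
      norm_num
    have h5' : (5 : F) ≠ 0 := by norm_num
    have h25' : (25 : F) ≠ 0 := by norm_num
    unfold glS
    rw [hT, hB, hp]
    simp only [G, List.map_cons, List.map_nil, El.v, pev]
    push_cast
    simp only [List.cons.injEq, and_true]
    refine ⟨?_, ?_, ?_, ?_, ?_, ?_, ?_⟩ <;> field_simp <;> ring
  -- the element pulled back
  have z1 : xi6a (p6e.ev x y) (q6e.ev x y) =
      zt (E.map (El.v x y) ++ G.map (El.v x y)) pool Lp := by
    have hg1 := gen6e hq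
    have h2 : (2 : F) ≠ 0 := two_ne_zero
    obtain ⟨a1, a2, a3, a4, a5, a6⟩ := nz6a_ne hg1
    have he1 := hg1.eq
    simp only [map_ratCast] at he1
    push_cast at he1
    have hQ : FK4.Q6 (2 : F) 1 (p6e.ev x y) (q6e.ev x y) (p6e.ev x y) (p6e.ev x y - 2)
        (p6e.ev x y - 1) (q6e.ev x y) (q6e.ev x y - p6e.ev x y) :=
      ⟨rfl, rfl, rfl, rfl, by rw [one_mul], hg1.x_ne, a4, a3, a1, a2, he1⟩
    rw [xi6a_zt hQ, zt_subS hne chk_sub, hv, gen_eq hx h1 he]
  have z2 : zt (E.map (El.v x y) ++ G.map (El.v x y)) pool Lx' =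
      zt (glS 2 t x y) (clsS2.take 16) Lx := by
    rw [← hgl]
    exact zt_padS (A := E.map (El.v x y)) (m := E.length) (by simp) hne chk_pad
  have hid := Id3.sound hne hm hS (n := (E ++ G).length) (by simp) chk_A chk_B chk_C
  simp only [zts, add_zero] at hid
  rw [z2, ← z1] at hid
  have hrz : RZ φ x y circ6e.X circ6e.Y (xi6a (p6e.ev x y) (q6e.ev x y)) :=
    (rz6e φ hg htop).of_neg (xi6a_eq _ _)
  refine (hrz.of_smul (-3) ?_).regNe (Xp_tendsto _) hq htop
  have h3 := Submodule.smul_mem _ (-(1 / 10323892) : ℚ) hid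
  have e : xi6a (p6e.ev x y) (q6e.ev x y) - (-3 : ℚ) • zt (glS 2 t x y) (clsS2.take 16) Lx =
      (-(1 / 10323892) : ℚ) • (((-10323892 : ℤ) : ℚ) • xi6a (p6e.ev x y) (q6e.ev x y) +
        ((-30971676 : ℤ) : ℚ) • zt (glS 2 t x y) (clsS2.take 16) Lx) := by
    rw [smul_add, smul_smul, smul_smul, sub_eq_add_neg, ← neg_smul]
    norm_num
  rw [← e] at h3
  exact mem_span_of_KC h3

end

end Pool.Agent.PB6
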