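import Pool.Agent.Lib_helper40.PB.D6d
import Pool.Agent.Lib_helper60.N6S.J
import Pool.Agent.Lib_helper24.TN.KB

set_option autoImplicit false
set_option linter.unusedVariables false
set_option linter.unusedSectionVars false

/-!
# The regulator for points of order six, `t = -1/3`
-/

namespace Pool.Agent.K4N.PC

open Filter Topology Pool.Agent.K4N.LA Pool.Agent.KC72 Pool.Agent.TN
open Pool.Agent.AX (El pev)

section path

variable {b c : ℚ} {gs : List El} {ks : List ℕ} {sp : List (List ℤ)} {N : ℕ} {X Y κ : ℝ → ℝ} {s : ℝ}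
variable {AM : List Mo} (T : Tr b c gs ks AM)

include T

variable (h : Path (b : ℝ) c (NQ gs ks sp) N X Y κ s)

include h

/-- the sum of the densities is the same at the translates -/
lemma sum_step {L : List LA.Tm} (hinv : sumTab2 gs.length (L.map (Tm.act (AM.map Prod.snd))) =
      sumTab2 gs.length L) {n : ℕ} (hn : n < N) :
    (L.map fun t => t.tri (aL gs ks (PP b X Y n s)) (dL b c gs (κ s) (PP b X Y n s))).sum =
      (L.map fun t => t.tri (aL gs ks (X s, Y s)) (dL b c gs (κ s) (X s, Y s))).sum := by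
  induction n with
  | zero => rfl
  | succ n ih =>
    rw [← ih (by omega)]
    exact sum_inv1 hinv (rel T h (n := n) (by omega)) (dL_length _ _ _ _ _)

/-- **from an arc to the component**, all translates -/
theorem pos_arc1 {L : List LA.Tm} (hinv : sumTab2 gs.length (L.map (Tm.act (AM.map Prod.snd))) =
      sumTab2 gs.length L) {M : ℕ} (hM : M < N)
    {p0 : List Bool} (hr : ∃ n ≤ M, (tpat AM)^[n] (pat (BV gs ks (X s) (Y s))) = p0)
    (harc : ∀ (p : ℝ × ℝ) (κ : ℝ), 0 < κ → Good b c gs ks sp p → pat (BV gs ks p.1 p.2) = p0 →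
      0 < (L.map fun t => t.tri (aL gs ks p) (dL b c gs κ p)).sum) :
    0 < (L.map fun t => t.tri (aL gs ks (X s, Y s)) (dL b c gs (κ s) (X s, Y s))).sum := by
  obtain ⟨n, hn, h1⟩ := hr
  have hn' : n < N := by omega
  rw [← sum_step T h hinv hn']
  refine harc _ _ h.pos ((good_of h).self_of_nhds _ hn') ?_
  rw [pat_iter T h hn', h1]

end path

/-- the patterns reach the pattern of the arc -/
def chkReach1 (AM : List Mo) (M : ℕ) (p0 : List Bool) (pats : List (List Bool)) : Bool :=
  pats.all fun p => (List.range (M + 1)).any fun n => decide ((tpat AM)^[n] p = p0)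

lemma reach1 {AM : List Mo} {M : ℕ} {p0 : List Bool} {pats : List (List Bool)}
    (h : chkReach1 AM M p0 pats = true) {p : List Bool} (hp : p ∈ pats) :
    ∃ n ≤ M, (tpat AM)^[n] p = p0 := by
  unfold chkReach1 at h
  rw [List.all_eq_true] at h
  have h1 := h p hp
  rw [List.any_eq_true] at h1
  obtain ⟨n, hn, h2⟩ := h1
  exact ⟨n, by rw [List.mem_range] at hn; omega, of_decide_eq_true h2⟩

end Pool.Agent.K4N.PC

namespace Pool.Agent.K4N.R6d

open Filter Topology Pool.Agent.K4N.LA Pool.Agent.K4N.PC Pool.Agent.KC72 Pool.Agent.TN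
open Pool.Agent.AX (El pev)
open Pool.Agent.N6S (clsS1 glS)
open scoped TensorProduct

/-- the real points -/
noncomputable def circ : Circ ((-2 / 9 : ℚ) : ℝ) ((-1 / 3 : ℚ) : ℝ) (fun U _ => -(1 / 3) < U) := by
  refine mkCirc _ _ (-(1 / 3)) (4 / 3) (4 / 27) _ ?_ ?_ ?_
  · intro x
    push_cast
    ring
  · intro x hx
    nlinarith [sq_nonneg (x + 1 / 6)]
  · intro s hs V _
    have : 0 < s ^ 2 := by positivity
    linarith

/-- the pattern of the arc -/
def p0 : List Bool := [false, false, false, false, false, false, false]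

/-- the patterns on the component -/
def pats : List (List Bool) :=
  [[false, false, false, false, false, false, false],
   [true, false, false, false, true, false, false],
   [true, true, false, false, false, false, false],
   [true, true, false, false, true, false, false],
   [true, false, false, true, true, false, false],
   [false, false, false, true, true, false, false]]

theorem cR : chkReach1 AM 5 p0 pats = true := by decide +kernel

/-- the values of the generators -/
lemma BV_eq {K : Type*} [Field K] [CharZero K] (U V : K) : BV gs ks U V =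
    [U, (9 * U + 2) / 9, (3 * U + 1) / 3, V, (3 * V + U) / 3, 2, 3] := by
  simp only [BV, BE, gs, ks, List.map_cons, List.map_nil, List.cons_append, List.nil_append, El.v,
    pev]
  push_cast
  congr 1
  · ring
  congr 1
  · ring
  congr 1
  · ring
  congr 1
  · ring
  congr 1
  · ring
  congr 1
  · ring
  congr 1
  · ring

lemma BV_gl {k F : Type*} [Field k] [CharZero k] [Field F] [Algebra k F] (x y : F) :
    BV gs ks x y = glS 1 (-1 / 3 : k) x y := by
  have : CharZero F := charZero_of_injective_algebraMap (algebraMap k F).injective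
  rw [BV_eq]
  unfold glS
  have e1 : algebraMap k F ((-1 / 3) ^ 2 + -1 / 3) = -2 / 9 := by
    rw [map_add, map_pow, map_div₀, map_neg, map_one, map_ofNat]
    norm_num
  have e2 : algebraMap k F (-1 / 3) = -1 / 3 := by
    rw [map_div₀, map_neg, map_one, map_ofNat]
  have e3 : (N6S.pr 1 : F) = 3 := by
    show ((3 : ℕ) : F) = 3
    norm_num
  rw [e1, e2, e3]
  congr 1
  congr 1
  · field_simp
    ring
  congr 1
  · field_simp
    ring
  congr 1
  congr 1
  · field_simp
    ring

lemma gen_ne {k F : Type*} [Field k] [CharZero k] [Field F] [Algebra k F] {x y : F}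
    (h : Gen ((-2 / 9 : ℚ) : k) ((-1 / 3 : ℚ) : k) x y) :
    (∀ z ∈ BV gs ks x y, z ≠ 0) ∧ ∀ l ∈ ([] : List (List ℤ)), pev x l ≠ 0 := by
  have : CharZero F := charZero_of_injective_algebraMap (algebraMap k F).injective
  have h1 := h.xc_ne (-2 / 9)
  have h2 := h.xc_ne (-1 / 3)
  have h3 := h.yab_ne (1 / 3) 0
  simp only [map_neg, map_one, map_zero, map_ofNat, map_div₀] at h1 h2 h3
  constructor
  · rw [BV_eq]
    simp only [List.forall_mem_cons]
    refine ⟨h.x_ne, fun e => h1 ?_, fun e => h2 ?_, h.y_ne, fun e => h3 ?_, two_ne_zero,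
      three_ne_zero, by simp⟩
    · linear_combination e
    · linear_combination e
    · linear_combination e
  · simp

lemma hden : chkDen gs = true := by decide

/-- the classes -/
lemma sols {K : Type*} [Field K] [CharZero K] {U V : K} (he : V ^ 2 + (1 - ((-1 / 3 : ℚ) : K)) * U *
    V - ((-2 / 9 : ℚ) : K) * V = U ^ 3 - ((-2 / 9 : ℚ) : K) * U ^ 2)
    (hB : ∀ z ∈ BV gs ks U V, z ≠ 0) : Sols (BV gs ks U V) clsT :=
  AX.sols_chk (cv_eq (bn := -2) (bd := 9) (cn := -1) (ce := 3) (by norm_num) (by norm_num) he)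
    (by decide) (BE_d hden) hB cS

/-- the signs on the component -/
lemma pat_mem {U V : ℝ} (he : V ^ 2 + (1 - ((-1 / 3 : ℚ) : ℝ)) * U * V - ((-2 / 9 : ℚ) : ℝ) * V =
    U ^ 3 - ((-2 / 9 : ℚ) : ℝ) * U ^ 2) (hU : -(1 / 3) < U) (hB : ∀ z ∈ BV gs ks U V, z ≠ 0) :
    pat (BV gs ks U V) ∈ pats := by
  rw [BV_eq] at hB ⊢
  push_cast at he
  simp only [List.forall_mem_cons] at hB
  obtain ⟨h0, h1, -, h3, h4, -⟩ := hB
  have k1 : V * (V + 4 / 3 * U + 2 / 9) = U ^ 2 * (U + 2 / 9) := by linear_combination he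
  have k2 : (V + U / 3) * (V + U + 2 / 9) = U * (U + 1 / 3) * (U + 2 / 9) := by
    linear_combination he
  have a2 : ¬ ((3 * U + 1) / 3 < 0) := by linarith
  have a5 : ¬ ((2 : ℝ) < 0) := by norm_num
  have a6 : ¬ ((3 : ℝ) < 0) := by norm_num
  have u2 : 0 < U ^ 2 := by positivity
  have u3 : 0 < U + 1 / 3 := by linarith
  rcases lt_or_gt_of_ne h0 with g0 | g0
  · rcases lt_or_gt_of_ne h1 with g1 | g1
    · -- `x < -2/9`
      have b1 : U + 2 / 9 < 0 := by linarith
      have c1 : V * (V + 4 / 3 * U + 2 / 9) < 0 := by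
        rw [k1]
        exact mul_neg_of_pos_of_neg u2 b1
      have a3 : ¬ (V < 0) := by
        intro h
        have : 0 < V * (V + 4 / 3 * U + 2 / 9) := mul_pos_of_neg_of_neg h (by linarith)
        linarith
      rcases lt_or_gt_of_ne h4 with g4 | g4
      · simp [pat, pats, g0, g1, a2, a3, g4, a5, a6]
      · have a4 : ¬ ((3 * V + U) / 3 < 0) := by linarith
        simp [pat, pats, g0, g1, a2, a3, a4, a5, a6]
    · -- `-2/9 < x < 0`
      have b1 : 0 < U + 2 / 9 := by linarith
      have g1' : ¬ ((9 * U + 2) / 9 < 0) := by linarith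
      have c2 : (V + U / 3) * (V + U + 2 / 9) < 0 := by
        rw [k2]
        exact mul_neg_of_neg_of_pos (mul_neg_of_neg_of_pos g0 u3) b1
      have c4 : (3 * V + U) / 3 < 0 := by
        by_contra h
        push Not at h
        have : 0 ≤ (V + U / 3) * (V + U + 2 / 9) :=
          mul_nonneg (by linarith) (by linarith)
        linarith
      rcases lt_or_gt_of_ne h3 with g3 | g3
      · simp [pat, pats, g0, g1', a2, g3, c4, a5, a6]
      · have a3 : ¬ (V < 0) := by linarith
        simp [pat, pats, g0, g1', a2, a3, c4, a5, a6]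
  · -- `0 < x`
    have a0 : ¬ (U < 0) := by linarith
    have b1 : 0 < U + 2 / 9 := by linarith
    have g1' : ¬ ((9 * U + 2) / 9 < 0) := by linarith
    rcases lt_or_gt_of_ne h3 with g3 | g3
    · have c1 : 0 < V * (V + 4 / 3 * U + 2 / 9) := by
        rw [k1]
        exact mul_pos u2 b1
      have c2 : V + 4 / 3 * U + 2 / 9 < 0 := by
        by_contra h
        push Not at h
        have := mul_nonpos_of_nonpos_of_nonneg g3.le h
        linarith
      have c4 : (3 * V + U) / 3 < 0 := by linarith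
      simp [pat, pats, a0, g1', a2, g3, c4, a5, a6]
    · have a3 : ¬ (V < 0) := by linarith
      have a4 : ¬ ((3 * V + U) / 3 < 0) := by linarith
      simp [pat, pats, a0, g1', a2, a3, a4, a5, a6]

lemma tr : Tr (-2 / 9) (-1 / 3) gs ks AM :=
  Tr.of_chk (bn := -2) (bd := 9) (cn := -1) (ce := 3) (by norm_num) (by norm_num) (by norm_num)
    (by norm_num) (by decide) cT

/-- positivity on the arc -/
lemma arc_pos (p : ℝ × ℝ) (κ : ℝ) (hκ : 0 < κ)
    (hg : Good ((-2 / 9 : ℚ) : ℝ) ((-1 / 3 : ℚ) : ℝ) gs ks [] p)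
    (hp : pat (BV gs ks p.1 p.2) = p0) :
    0 < ((L6ds.map (lt clsT)).map fun t => t.tri (aL gs ks p)
      (dL ((-2 / 9 : ℚ) : ℝ) ((-1 / 3 : ℚ) : ℝ) gs κ p)).sum := by
  have h0 := hg.hB
  rw [BV_eq] at hp h0
  simp only [List.forall_mem_cons] at h0
  obtain ⟨n0, n1, n2, n3, n4, -⟩ := h0
  simp only [pat, p0, List.map_cons, List.map_nil, List.cons.injEq, decide_eq_false_iff_not,
    not_lt] at hp
  obtain ⟨q0, q1, q2, q3, q4, -⟩ := hp
  have m0 := lt_of_le_of_ne q0 (Ne.symm n0)
  have m1 := lt_of_le_of_ne q1 (Ne.symm n1)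
  have m2 := lt_of_le_of_ne q2 (Ne.symm n2)
  have m3 := lt_of_le_of_ne q3 (Ne.symm n3)
  have m4 := lt_of_le_of_ne q4 (Ne.symm n4)
  have hb : (-2 / 9 : ℚ) * ((9 : ℤ) : ℚ) = ((-2 : ℤ) : ℚ) := by norm_num
  have hc : (-1 / 3 : ℚ) * ((3 : ℤ) : ℚ) = ((-1 : ℤ) : ℚ) := by norm_num
  have hl : chkLin gs = true := by decide
  have hP : arc.chkP gs.length (L6ds.map (lt clsT)) = true := cP
  refine Arc.pos hb hc (by norm_num) (by norm_num) hl hP cU cW hκ hg ?_ ?_ ?_
  · rw [BV_eq]
    simp only [List.forall_mem_cons]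
    exact ⟨m0, m1, m2, m3, m4, two_pos, three_pos, by simp⟩
  · constructor
    · show ((0 : ℤ) : ℝ) < ((1 : ℤ) : ℝ) * p.1
      push_cast
      linarith
    · show ((0 : ℤ) : ℝ) * p.1 < ((1 : ℤ) : ℝ)
      push_cast
      linarith
  · push_cast
    linarith

/-- **The sum of the densities is positive** along any path on the component. -/
theorem pos6d {X Y κ : ℝ → ℝ} {s : ℝ}
    (hp : Path ((-2 / 9 : ℚ) : ℝ) ((-1 / 3 : ℚ) : ℝ) (NQ gs ks []) 6 X Y κ s)
    (hC : -(1 / 3) < X s) :
    0 < ((L6ds.map (lt clsT)).map fun t => t.tri (aL gs ks (X s, Y s))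
      (dL ((-2 / 9 : ℚ) : ℝ) ((-1 / 3 : ℚ) : ℝ) gs (κ s) (X s, Y s))).sum := by
  refine pos_arc1 tr hp cI (M := 5) (by norm_num) (p0 := p0) ?_ arc_pos
  refine reach1 cR (pat_mem ((hp.ok.self_of_nhds 0 (by norm_num)).eq) hC ?_)
  exact ((good_of hp).self_of_nhds 0 (by norm_num)).hB

section

variable {k F : Type*} [Field k] [Field F] [Algebra k F] {x y : F}

/-- **The regulator is not zero.** -/
theorem rz6d [CharZero k] (φ : k →+* ℝ) (h : Gen ((-2 / 9 : ℚ) : k) ((-1 / 3 : ℚ) : k) x y)
    (htop : IntermediateField.adjoin k {x, y} = ⊤) :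
    RZ φ x y circ.X circ.Y (KC72.zt (glS 1 (-1 / 3 : k) x y) clsT L6ds) := by
  have : CharZero F := charZero_of_injective_algebraMap (algebraMap k F).injective
  rw [← BV_gl]
  have he : y ^ 2 + (1 - ((-1 / 3 : ℚ) : F)) * x * y - ((-2 / 9 : ℚ) : F) * y =
      x ^ 3 - ((-2 / 9 : ℚ) : F) * x ^ 2 := by
    have := h.eq
    rwa [map_ratCast, map_ratCast] at this
  refine rz_zt φ (-2 / 9) (-1 / 3) (by norm_num) h htop circ [] 6 (by norm_num) hden
    (fun x' y' h' => gen_ne h') (sols he (gen_ne h).1) (fun U V heR hBR => sols heR hBR)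
    (by decide) fun X Y κ s hp hC => pos6d hp hC

/-- **The regulator is not zero** for the elements of which the class is a multiple. -/
theorem rn6d_of [CharZero k] {t : k} (ht : 3 * t = -1) (φ : k →+* ℝ) (h : N6.G6 t x y)
    (htop : IntermediateField.adjoin k {x, y} = ⊤) (β : ℚ) (ξ : MK4.HK F)
    (hβ : KC72.zt (glS 1 t x y) (clsS1.take 16) L6ds - β • ξ ∈ MK4.Cst k F) : FK4.RegNe φ ξ := by
  have ht' : t = -1 / 3 := by
    rw [eq_div_iff three_ne_zero]
    linear_combination ht
  subst ht'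
  have h' : Gen ((-2 / 9 : ℚ) : k) ((-1 / 3 : ℚ) : k) x y := by
    have e1 : ((-2 / 9 : ℚ) : k) = (-1 / 3) ^ 2 + -1 / 3 := by
      push_cast
      norm_num
    have e2 : ((-1 / 3 : ℚ) : k) = -1 / 3 := by
      push_cast
      rfl
    rw [e1, e2]
    exact h
  rw [← TN.KC_eq] at hβ
  exact ((rz6d φ h' htop).of_smul β (mem_span_of_KC hβ)).regNe (Xp_tendsto _) h' htop

end

end Pool.Agent.K4N.R6d
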